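import Mathlib.Combinatorics.SimpleGraph.Metric
import Mathlib.Combinatorics.SimpleGraph.Connectivity.Subgraph

set_option autoImplicit false

namespace Pool.Agent.MP_0380a0_co

/-- A graph `G` is *distance-hereditary* if for every connected induced subgraph `H = G[S]` and all
vertices `u, v` of `H` the distance of `u` and `v` in `H` equals their distance in `G`
(distances are extended natural numbers, `⊤` when there is no path). -/
def DistanceHereditary {V : Type*} (G : SimpleGraph V) : Prop :=
  ∀ S : Set V, (G.induce S).Connected →
    ∀ u v : S, (G.induce S).edist u v = G.edist (u : V) (v : V)

end Pool.Agent.MP_0380a0_co
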