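import Mathlib
import Pool.Agent.MP_0380a0_co.Defs

set_option autoImplicit false

namespace Pool.Agent.MP_0380a0_co

variable {V : Type*} {G : SimpleGraph V}

/-- A finite vertex set is *reducible* if it contains a pair of twins, or if it has a separation
into two smaller parts that share at most one vertex. -/
def Red (G : SimpleGraph V) (S : Finset V) : Prop :=
  (∃ u ∈ S, ∃ v ∈ S, u ≠ v ∧ ∀ x ∈ S, x ≠ u → x ≠ v → (G.Adj x u ↔ G.Adj x v)) ∨
  (∃ S1 S2 : Finset V, S1 ⊂ S ∧ S2 ⊂ S ∧ (∀ x ∈ S, x ∈ S1 ∨ x ∈ S2) ∧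
    (∀ x y, x ∈ S1 → x ∈ S2 → y ∈ S1 → y ∈ S2 → x = y) ∧
    ∀ x y, x ∈ S1 → x ∉ S2 → y ∈ S2 → y ∉ S1 → ¬ G.Adj x y)

/-- `p 0, …, p n` is an induced path. -/
structure IP (G : SimpleGraph V) (n : ℕ) (p : ℕ → V) : Prop where
  inj : ∀ i j, i ≤ n → j ≤ n → p i = p j → i = j
  adj : ∀ i j, i ≤ n → j ≤ n → (G.Adj (p i) (p j) ↔ (i + 1 = j ∨ j + 1 = i))

theorem IP.take {n : ℕ} {p : ℕ → V} (h : IP G n p) {a : ℕ} (ha : a ≤ n) : IP G a p :=
  ⟨fun i j hi hj => h.inj i j (hi.trans ha) (hj.trans ha),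
    fun i j hi hj => h.adj i j (hi.trans ha) (hj.trans ha)⟩

theorem IP.drop {n : ℕ} {p : ℕ → V} (h : IP G n p) {a : ℕ} (ha : a ≤ n) :
    IP G (n - a) (fun i => p (a + i)) := by
  refine ⟨fun i j hi hj hij => ?_, fun i j hi hj => ?_⟩
  · have := h.inj (a + i) (a + j) (by omega) (by omega) hij
    omega
  · rw [h.adj (a + i) (a + j) (by omega) (by omega)]
    omega

theorem IP.rev {n : ℕ} {p : ℕ → V} (h : IP G n p) : IP G n (fun i => p (n - i)) := by
  refine ⟨fun i j hi hj hij => ?_, fun i j hi hj => ?_⟩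
  · have := h.inj (n - i) (n - j) (by omega) (by omega) hij
    omega
  · rw [h.adj (n - i) (n - j) (by omega) (by omega)]
    omega

/-- A separation of the vertex set of a path. -/
structure Sep (G : SimpleGraph V) (S1 S2 : Finset V) : Prop where
  uniq : ∀ x y, x ∈ S1 → x ∈ S2 → y ∈ S1 → y ∈ S2 → x = y
  nadj : ∀ x y, x ∈ S1 → x ∉ S2 → y ∈ S2 → y ∉ S1 → ¬ G.Adj x y

theorem Sep.symm {S1 S2 : Finset V} (h : Sep G S1 S2) : Sep G S2 S1 :=
  ⟨fun x y h1 h2 h3 h4 => h.uniq x y h2 h1 h4 h3,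
    fun x y h1 h2 h3 h4 hxy => h.nadj y x h3 h4 h1 h2 hxy.symm⟩

theorem Sep.exit {S1 S2 : Finset V} (h : Sep G S1 S2) {n : ℕ} {p : ℕ → V} (hp : IP G n p)
    (hmem : ∀ i ≤ n, p i ∈ S1 ∨ p i ∈ S2) (h0 : p 0 ∈ S1) :
    ∀ k ≤ n, p k ∉ S1 → ∃ a < k, p a ∈ S1 ∧ p a ∈ S2 := by
  intro k
  induction k with
  | zero => intro _ h; exact absurd h0 h
  | succ k ih =>
    intro hk hk'
    by_cases hk1 : p k ∈ S1
    · refine ⟨k, by omega, hk1, ?_⟩
      by_contra hk2
      have h3 : p (k + 1) ∈ S2 := (hmem (k + 1) hk).resolve_left hk'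
      exact h.nadj _ _ hk1 hk2 h3 hk' ((hp.adj k (k + 1) (by omega) hk).2 (Or.inl rfl))
    · obtain ⟨a, ha, ha'⟩ := ih (by omega) hk1
      exact ⟨a, by omega, ha'⟩

theorem Sep.stay {S1 S2 : Finset V} (h : Sep G S1 S2) {n : ℕ} {p : ℕ → V} (hp : IP G n p)
    (hmem : ∀ i ≤ n, p i ∈ S1 ∨ p i ∈ S2) (h0 : p 0 ∈ S1) (hn : p n ∈ S1) :
    ∀ i ≤ n, p i ∈ S1 := by
  intro i hi
  by_contra hi'
  obtain ⟨a, ha, ha1, ha2⟩ := h.exit hp hmem h0 i hi hi'
  obtain ⟨b, hb, hb1, hb2⟩ := h.exit hp.rev (fun j hj => hmem _ (by omega)) (by simpa using hn)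
    (n - i) (by omega) (by simpa [Nat.sub_sub_self hi] using hi')
  have := hp.inj a (n - b) (by omega) (by omega) (h.uniq _ _ ha1 ha2 hb1 hb2)
  omega

theorem Sep.cross {S1 S2 : Finset V} (h : Sep G S1 S2) {n : ℕ} {p : ℕ → V} (hp : IP G n p)
    (hmem : ∀ i ≤ n, p i ∈ S1 ∨ p i ∈ S2) (h0 : p 0 ∈ S1) (hn : p n ∉ S1) :
    ∃ a ≤ n, (∀ i ≤ a, p i ∈ S1) ∧ (∀ i, a ≤ i → i ≤ n → p i ∈ S2) := by
  classical
  have hex : ∃ k, k ≤ n ∧ p k ∉ S1 := ⟨n, le_rfl, hn⟩
  obtain ⟨hk1, hk2⟩ := Nat.find_spec hex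
  have hmin : ∀ j < Nat.find hex, p j ∈ S1 := by
    intro j hj
    by_contra hj'
    exact Nat.find_min hex hj ⟨by omega, hj'⟩
  have hpos : Nat.find hex ≠ 0 := by
    intro h0'
    rw [h0'] at hk2
    exact hk2 h0
  obtain ⟨a, ha⟩ := Nat.exists_eq_succ_of_ne_zero hpos
  rw [Nat.succ_eq_add_one] at ha
  rw [ha] at hk1 hk2 hmin
  have ha1 : p a ∈ S1 := hmin a (by omega)
  have ha2 : p a ∈ S2 := by
    by_contra hk2'
    have h3 : p (a + 1) ∈ S2 := (hmem (a + 1) hk1).resolve_left hk2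
    exact h.nadj _ _ ha1 hk2' h3 hk2 ((hp.adj a (a + 1) (by omega) hk1).2 (Or.inl rfl))
  refine ⟨a, by omega, fun i hi => hmin i (by omega), ?_⟩
  intro i hi1 hi2
  have hn2 : p n ∈ S2 := (hmem n le_rfl).resolve_left hn
  have := h.symm.stay (hp.drop (a := a) (by omega)) (fun j hj => (hmem _ (by omega)).symm)
    (by simpa using ha2) (by
      have : a + (n - a) = n := by omega
      simpa [this] using hn2) (i - a) (by omega)
  have hia : a + (i - a) = i := by omega
  simpa [hia] using this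

/-- `u` and `v` are twins with respect to `S`. -/
structure Twins (G : SimpleGraph V) (S : Finset V) (u v : V) : Prop where
  ne : u ≠ v
  adj : ∀ x ∈ S, x ≠ u → x ≠ v → (G.Adj x u ↔ G.Adj x v)

theorem Twins.symm {S : Finset V} {u v : V} (h : Twins G S u v) : Twins G S v u :=
  ⟨h.ne.symm, fun x hx h1 h2 => (h.adj x hx h2 h1).symm⟩

theorem Twins.ends_aux {S : Finset V} {u v : V} (h : Twins G S u v) {n : ℕ} {p : ℕ → V}
    (hp : IP G n p) (hS : ∀ i ≤ n, p i ∈ S) {i j : ℕ} (hi : i ≤ n) (hj : j ≤ n)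
    (hiu : p i = u) (hjv : p j = v) (hij : i < j) :
    i = 0 ∧ j = n ∧ ((n = 1 ∧ G.Adj u v) ∨ (n = 2 ∧ ¬ G.Adj u v)) := by
  have key : ∀ k ≤ n, k ≠ i → k ≠ j → ((k + 1 = i ∨ i + 1 = k) ↔ (k + 1 = j ∨ j + 1 = k)) := by
    intro k hk h1 h2
    rw [← hp.adj k i hk hi, ← hp.adj k j hk hj, hiu, hjv]
    refine h.adj _ (hS k hk) ?_ ?_
    · intro h3; exact h1 (hp.inj k i hk hi (h3.trans hiu.symm))
    · intro h3; exact h2 (hp.inj k j hk hj (h3.trans hjv.symm))
  have hi0 : i = 0 := by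
    by_contra h0
    have := key (i - 1) (by omega) (by omega) (by omega)
    omega
  have hjn : j = n := by
    by_contra h0
    have := key (j + 1) (by omega) (by omega) (by omega)
    omega
  have huv : G.Adj u v ↔ n = 1 := by
    rw [← hiu, ← hjv, hp.adj i j hi hj]
    omega
  refine ⟨hi0, hjn, ?_⟩
  by_cases hn1 : n = 1
  · exact Or.inl ⟨hn1, huv.2 hn1⟩
  · right
    have := key 1 (by omega) (by omega) (by omega)
    exact ⟨by omega, fun h => hn1 (huv.1 h)⟩

theorem Twins.ends {S : Finset V} {u v : V} (h : Twins G S u v) {n : ℕ} {p : ℕ → V}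
    (hp : IP G n p) (hS : ∀ i ≤ n, p i ∈ S) {i j : ℕ} (hi : i ≤ n) (hj : j ≤ n)
    (hiu : p i = u) (hjv : p j = v) :
    ((p 0 = u ∧ p n = v) ∨ (p 0 = v ∧ p n = u)) ∧
      ((n = 1 ∧ G.Adj u v) ∨ (n = 2 ∧ ¬ G.Adj u v)) := by
  rcases lt_trichotomy i j with hij | hij | hij
  · obtain ⟨h1, h2, h3⟩ := h.ends_aux hp hS hi hj hiu hjv hij
    subst h1; subst h2
    exact ⟨Or.inl ⟨hiu, hjv⟩, h3⟩
  · exact absurd (by rw [← hiu, ← hjv, hij]) h.ne
  · obtain ⟨h1, h2, h3⟩ := h.symm.ends_aux hp hS hj hi hjv hiu hij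
    subst h1; subst h2
    refine ⟨Or.inr ⟨hjv, hiu⟩, ?_⟩
    rwa [G.adj_comm v u] at h3

open Classical in
theorem Twins.swap {S : Finset V} {u v : V} (h : Twins G S u v) {n : ℕ} {p : ℕ → V}
    (hp : IP G n p) (hS : ∀ i ≤ n, p i ∈ S) (hv : ∀ i ≤ n, p i ≠ v) :
    IP G n (fun i => if p i = u then v else p i) := by
  refine ⟨fun i j hi hj hij => ?_, fun i j hi hj => ?_⟩
  · by_cases hiu : p i = u
    · by_cases hju : p j = u
      · exact hp.inj i j hi hj (hiu.trans hju.symm)
      · simp only [hiu, hju, if_true, if_false] at hij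
        exact absurd hij.symm (hv j hj)
    · by_cases hju : p j = u
      · simp only [hiu, hju, if_true, if_false] at hij
        exact absurd hij (hv i hi)
      · simp only [hiu, hju, if_false] at hij
        exact hp.inj i j hi hj hij
  · rw [← hp.adj i j hi hj]
    by_cases hiu : p i = u
    · by_cases hju : p j = u
      · simp only [hiu, hju, if_true]
        simp
      · simp only [hiu, hju, if_true, if_false]
        rw [G.adj_comm, G.adj_comm u]
        exact (h.adj _ (hS j hj) hju (hv j hj)).symm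
    · by_cases hju : p j = u
      · simp only [hiu, hju, if_true, if_false]
        exact (h.adj _ (hS i hi) hiu (hv i hi)).symm
      · simp only [hiu, hju, if_false]

theorem IP.card {n : ℕ} {p : ℕ → V} (hp : IP G n p) {S : Finset V} (hS : ∀ i ≤ n, p i ∈ S) :
    n + 1 ≤ S.card := by
  classical
  have h1 : (Finset.range (n + 1)).card ≤ S.card := by
    refine Finset.card_le_card_of_injOn p ?_ ?_
    · intro i hi
      simp only [Finset.coe_range, Set.mem_Iio] at hi
      exact hS i (by omega)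
    · intro i hi j hj hij
      simp only [Finset.coe_range, Set.mem_Iio] at hi hj
      exact hp.inj i j (by omega) (by omega) hij
  simpa using h1

/-- In a graph all of whose finite vertex sets with at least three elements are reducible, two
induced paths with the same ends have the same length. -/
theorem length_unique (h : ∀ S : Finset V, 3 ≤ S.card → Red G S) (S : Finset V) :
    ∀ (n : ℕ) (p : ℕ → V) (m : ℕ) (q : ℕ → V), IP G n p → IP G m q → (∀ i ≤ n, p i ∈ S) →
      (∀ i ≤ m, q i ∈ S) → p 0 = q 0 → p n = q m → n = m := by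
  classical
  induction S using Finset.strongInduction with
  | H S ih =>
  intro n p m q hp hq hpS hqS h0 hn
  by_cases hcard : S.card < 3
  · have h1 := hp.card hpS
    have h2 := hq.card hqS
    have hn1 : n ≤ 1 := by omega
    have hm1 : m ≤ 1 := by omega
    by_cases hn0 : n = 0
    · subst hn0
      exact hq.inj 0 m (by omega) le_rfl (h0.symm.trans hn)
    · by_cases hm0 : m = 0
      · subst hm0
        exact (hp.inj 0 n (by omega) le_rfl (h0.trans hn.symm)).symm
      · omega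
  rcases h S (by omega) with ⟨u, hu, v, hv, huv, htw⟩ | ⟨S1, S2, hS1, hS2, hcov, huniq, hnadj⟩
  · have tw : Twins G S u v := ⟨huv, htw⟩
    -- both `u` and `v` on one path
    have both : ∀ (n : ℕ) (p : ℕ → V) (m : ℕ) (q : ℕ → V), IP G n p → IP G m q →
        (∀ i ≤ n, p i ∈ S) → (∀ i ≤ m, q i ∈ S) → p 0 = q 0 → p n = q m →
        (∃ i ≤ n, p i = u) → (∃ i ≤ n, p i = v) → n = m := by
      intro n p m q hp hq hpS hqS h0 hn ⟨i, hi, hiu⟩ ⟨j, hj, hjv⟩
      obtain ⟨h1, h2⟩ := tw.ends hp hpS hi hj hiu hjv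
      have h3 : (m = 1 ∧ G.Adj u v) ∨ (m = 2 ∧ ¬ G.Adj u v) := by
        rcases h1 with ⟨h1, h1'⟩ | ⟨h1, h1'⟩
        · exact (tw.ends hq hqS (i := 0) (j := m) (by omega) le_rfl (h0.symm.trans h1)
            (hn.symm.trans h1')).2
        · exact (tw.ends hq hqS (i := m) (j := 0) le_rfl (by omega) (hn.symm.trans h1')
            (h0.symm.trans h1)).2
      rcases h2 with ⟨h2, h2'⟩ | ⟨h2, h2'⟩ <;> rcases h3 with ⟨h3, h3'⟩ | ⟨h3, h3'⟩
      · omega
      · exact absurd h2' h3'
      · exact absurd h3' h2'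
      · omega
    -- `u` on the first path only, `v` on the second path only
    have one : ∀ (u v : V), Twins G S u v → u ∈ S → v ∈ S →
        ∀ (n : ℕ) (p : ℕ → V) (m : ℕ) (q : ℕ → V), IP G n p → IP G m q →
        (∀ i ≤ n, p i ∈ S) → (∀ i ≤ m, q i ∈ S) → p 0 = q 0 → p n = q m →
        (∀ i ≤ m, q i ≠ u) → (∀ i ≤ n, p i ≠ v) → n = m := by
      intro u v tw hu hv n p m q hp hq hpS hqS h0 hn hqu hpv
      refine ih (S.erase u) (Finset.erase_ssubset hu) n (fun i => if p i = u then v else p i) m q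
        (tw.swap hp hpS hpv) hq ?_ ?_ ?_ ?_
      · intro i hi
        by_cases hiu : p i = u
        · simp [hiu, tw.ne.symm, hv]
        · simp [hiu, hpS i hi]
      · intro i hi
        simp [hqu i hi, hqS i hi]
      · have : p 0 ≠ u := by rw [h0]; exact hqu 0 (by omega)
        show (if p 0 = u then v else p 0) = q 0
        rw [if_neg this]; exact h0
      · have : p n ≠ u := by rw [hn]; exact hqu m le_rfl
        show (if p n = u then v else p n) = q m
        rw [if_neg this]; exact hn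
    by_cases hpu : ∃ i ≤ n, p i = u
    · by_cases hpv : ∃ i ≤ n, p i = v
      · exact both n p m q hp hq hpS hqS h0 hn hpu hpv
      · push Not at hpv
        by_cases hqu : ∃ i ≤ m, q i = u
        · by_cases hqv : ∃ i ≤ m, q i = v
          · exact (both m q n p hq hp hqS hpS h0.symm hn.symm hqu hqv).symm
          · push Not at hqv
            refine ih (S.erase v) (Finset.erase_ssubset hv) n p m q hp hq ?_ ?_ h0 hn
            · intro i hi; simp [hpv i hi, hpS i hi]
            · intro i hi; simp [hqv i hi, hqS i hi]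
        · push Not at hqu
          exact one u v tw hu hv n p m q hp hq hpS hqS h0 hn hqu hpv
    · push Not at hpu
      by_cases hqu : ∃ i ≤ m, q i = u
      · by_cases hqv : ∃ i ≤ m, q i = v
        · exact (both m q n p hq hp hqS hpS h0.symm hn.symm hqu hqv).symm
        · push Not at hqv
          exact one v u tw.symm hv hu n p m q hp hq hpS hqS h0 hn hqv hpu
      · push Not at hqu
        refine ih (S.erase u) (Finset.erase_ssubset hu) n p m q hp hq ?_ ?_ h0 hn
        · intro i hi; simp [hpu i hi, hpS i hi]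
        · intro i hi; simp [hqu i hi, hqS i hi]
  · have sep : Sep G S1 S2 := ⟨huniq, hnadj⟩
    have hpc : ∀ i ≤ n, p i ∈ S1 ∨ p i ∈ S2 := fun i hi => hcov _ (hpS i hi)
    have hqc : ∀ i ≤ m, q i ∈ S1 ∨ q i ∈ S2 := fun i hi => hcov _ (hqS i hi)
    have crossing : ∀ S1 S2 : Finset V, S1 ⊂ S → S2 ⊂ S → Sep G S1 S2 →
        (∀ i ≤ n, p i ∈ S1 ∨ p i ∈ S2) → (∀ i ≤ m, q i ∈ S1 ∨ q i ∈ S2) →
        p 0 ∈ S1 → p n ∉ S1 → n = m := by
      intro S1 S2 hS1 hS2 sep hpc hqc hp0 hpn
      obtain ⟨a, ha, ha1, ha2⟩ := sep.cross hp hpc hp0 hpn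
      obtain ⟨b, hb, hb1, hb2⟩ := sep.cross hq hqc (h0 ▸ hp0) (hn ▸ hpn)
      have hab : p a = q b := sep.uniq _ _ (ha1 a le_rfl) (ha2 a le_rfl ha) (hb1 b le_rfl)
        (hb2 b le_rfl hb)
      have h1 := ih S1 hS1 a p b q (hp.take ha) (hq.take hb) ha1 hb1 h0 hab
      have h2 := ih S2 hS2 (n - a) (fun i => p (a + i)) (m - b) (fun i => q (b + i)) (hp.drop ha)
        (hq.drop hb) (fun i hi => ha2 _ (by omega) (by omega))
        (fun i hi => hb2 _ (by omega) (by omega)) (by simpa using hab) (by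
          have e1 : a + (n - a) = n := by omega
          have e2 : b + (m - b) = m := by omega
          simp only [e1, e2]; exact hn)
      omega
    by_cases h1 : p 0 ∈ S1
    · by_cases h2 : p n ∈ S1
      · exact ih S1 hS1 n p m q hp hq (sep.stay hp hpc h1 h2)
          (sep.stay hq hqc (h0 ▸ h1) (hn ▸ h2)) h0 hn
      · exact crossing S1 S2 hS1 hS2 sep hpc hqc h1 h2
    · have h1' : p 0 ∈ S2 := (hpc 0 (by omega)).resolve_left h1
      by_cases h2 : p n ∈ S2
      · exact ih S2 hS2 n p m q hp hq (sep.symm.stay hp (fun i hi => (hpc i hi).symm) h1' h2)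
          (sep.symm.stay hq (fun i hi => (hqc i hi).symm) (h0 ▸ h1') (hn ▸ h2)) h0 hn
      · exact crossing S2 S1 hS2 hS1 sep.symm (fun i hi => (hpc i hi).symm)
          (fun i hi => (hqc i hi).symm) h1' h2

/-- A shortest walk is an induced path. -/
theorem exists_IP {a b : V} (h : G.Reachable a b) :
    ∃ p : ℕ → V, IP G (G.dist a b) p ∧ p 0 = a ∧ p (G.dist a b) = b := by
  obtain ⟨w, hw⟩ := h.exists_walk_length_eq_dist
  refine ⟨w.getVert, ?_, by simp, by rw [← hw]; simp⟩
  have htake : ∀ i, i ≤ w.length → G.edist a (w.getVert i) ≤ (i : ℕ) := by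
    intro i hi
    have := (w.take i).edist_le
    rw [SimpleGraph.Walk.take_length] at this
    refine this.trans ?_
    exact_mod_cast min_le_left _ _
  have hdrop : ∀ i, i ≤ w.length → G.edist (w.getVert i) b ≤ ((w.length - i : ℕ) : ℕ∞) := by
    intro i hi
    have := (w.drop i).edist_le
    rwa [SimpleGraph.Walk.drop_length] at this
  have main : ∀ i j d : ℕ, i ≤ w.length → j ≤ w.length →
      G.edist (w.getVert i) (w.getVert j) ≤ (d : ℕ) → j ≤ i + d := by
    intro i j d hi hj hd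
    have h1 : G.edist a b ≤ (i : ℕ∞) + (d : ℕ∞) + ((w.length - j : ℕ) : ℕ∞) := by
      calc G.edist a b ≤ G.edist a (w.getVert j) + G.edist (w.getVert j) b :=
            SimpleGraph.edist_triangle
        _ ≤ (G.edist a (w.getVert i) + G.edist (w.getVert i) (w.getVert j)) +
              G.edist (w.getVert j) b := by gcongr; exact SimpleGraph.edist_triangle
        _ ≤ _ := by gcongr; exact htake i hi; exact hdrop j hj
    rw [← h.coe_dist_eq_edist, ← hw] at h1
    have h2 : w.length ≤ i + d + (w.length - j) := by exact_mod_cast h1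
    omega
  rw [← hw]
  refine ⟨fun i j hi hj hij => ?_, fun i j hi hj => ⟨fun hadj => ?_, fun hadj => ?_⟩⟩
  · have h1 := main i j 0 hi hj (by simp [hij])
    have h2 := main j i 0 hj hi (by simp [hij])
    omega
  · have h1 := main i j 1 hi hj (by simp [SimpleGraph.edist_eq_one_iff_adj.2 hadj])
    have h2 := main j i 1 hj hi (by simp [SimpleGraph.edist_eq_one_iff_adj.2 hadj.symm])
    have h3 : i ≠ j := by rintro rfl; exact G.loopless.irrefl _ hadj
    omega
  · rcases hadj with rfl | rfl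
    · exact w.adj_getVert_succ (by omega)
    · exact (w.adj_getVert_succ (by omega)).symm

/-- A graph all of whose finite vertex sets with at least three elements are reducible is
distance-hereditary. -/
theorem distanceHereditary_of_red (h : ∀ S : Finset V, 3 ≤ S.card → Red G S) :
    DistanceHereditary G := by
  classical
  intro S hS a b
  have hr : (G.induce S).Reachable a b := hS.preconnected a b
  have hr' : G.Reachable (a : V) (b : V) := hr.map (SimpleGraph.Embedding.induce S).toHom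
  obtain ⟨p, hp, hp0, hpn⟩ := exists_IP hr
  obtain ⟨q, hq, hq0, hqn⟩ := exists_IP hr'
  have hp' : IP G ((G.induce S).dist a b) (fun i => (p i : V)) := by
    refine ⟨fun i j hi hj hij => hp.inj i j hi hj (Subtype.ext hij), fun i j hi hj => ?_⟩
    rw [← hp.adj i j hi hj]
    simp
  have := length_unique h
    ((Finset.range ((G.induce S).dist a b + 1)).image (fun i => (p i : V)) ∪
      (Finset.range (G.dist a b + 1)).image q) _ _ _ _ hp' hq
    (by
      intro i hi
      refine Finset.mem_union_left _ (Finset.mem_image_of_mem _ ?_)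
      simp only [Finset.mem_range]; omega)
    (by
      intro i hi
      refine Finset.mem_union_right _ (Finset.mem_image_of_mem _ ?_)
      simp only [Finset.mem_range]; omega)
    (by simp [hp0, hq0]) (by simp [hpn, hqn])
  rw [← hr.coe_dist_eq_edist, ← hr'.coe_dist_eq_edist, this]

end Pool.Agent.MP_0380a0_co
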