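import Mathlib
import Pool.Agent.MP_0380a0_co.Defs

set_option autoImplicit false

namespace Pool.Agent.MP_0380a0_co

open Relation

variable {V : Type*} {G : SimpleGraph V}

/-- One step of a path which ends in `S`. -/
def Step (G : SimpleGraph V) (S : Set V) (a b : V) : Prop := G.Adj a b ∧ b ∈ S

/-- `S` is connected through paths inside `S`. -/
def Conn (G : SimpleGraph V) (S : Set V) : Prop :=
  ∀ x ∈ S, ∀ y ∈ S, ReflTransGen (Step G S) x y

theorem reflTransGen_mem {S : Set V} {x y : V} (hx : x ∈ S) (h : ReflTransGen (Step G S) x y) :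
    y ∈ S := by
  cases h with
  | refl => exact hx
  | tail _ h => exact h.2

theorem reflTransGen_symm {S : Set V} {x y : V} (hx : x ∈ S) (h : ReflTransGen (Step G S) x y) :
    ReflTransGen (Step G S) y x := by
  induction h with
  | refl => exact ReflTransGen.refl
  | tail h1 h2 ih =>
    exact ReflTransGen.head ⟨h2.1.symm, reflTransGen_mem hx h1⟩ ih

theorem reachable_of_reflTransGen {S : Set V} {x y : V} (hx : x ∈ S) (hy : y ∈ S)
    (h : ReflTransGen (Step G S) x y) : (G.induce S).Reachable ⟨x, hx⟩ ⟨y, hy⟩ := by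
  induction h with
  | refl => exact SimpleGraph.Reachable.refl _
  | tail h1 h2 ih =>
    have hb := reflTransGen_mem hx h1
    exact (ih hb).trans (SimpleGraph.Adj.reachable (by simpa using h2.1))

theorem Conn.connected {S : Set V} (h : Conn G S) (hS : S.Nonempty) : (G.induce S).Connected := by
  have : Nonempty S := hS.to_subtype
  refine ⟨fun x y => ?_⟩
  exact reachable_of_reflTransGen x.2 y.2 (h x x.2 y y.2)

theorem Conn.cons {S : Set V} (h : Conn G S) {z s : V} (hs : s ∈ S) (hzs : G.Adj z s) :
    Conn G (insert z S) := by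
  have mono : ∀ {a b : V}, ReflTransGen (Step G S) a b → ReflTransGen (Step G (insert z S)) a b := by
    intro a b hab
    induction hab with
    | refl => exact ReflTransGen.refl
    | tail _ h ih => exact ih.tail ⟨h.1, Set.mem_insert_of_mem _ h.2⟩
  have h1 : ∀ x ∈ S, ReflTransGen (Step G (insert z S)) x z := by
    intro x hx
    exact (mono (h x hx s hs)).tail ⟨hzs.symm, Set.mem_insert _ _⟩
  intro x hx y hy
  have hx' : ReflTransGen (Step G (insert z S)) x z := by
    rcases hx with rfl | hx
    · exact ReflTransGen.refl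
    · exact h1 x hx
  have hy' : ReflTransGen (Step G (insert z S)) y z := by
    rcases hy with rfl | hy
    · exact ReflTransGen.refl
    · exact h1 y hy
  exact hx'.trans (reflTransGen_symm hy hy')

/-- The key property of distance-hereditary graphs: if `S` is connected and disjoint from the closed
neighbourhood of `u`, and `z ∈ N(u)` has a neighbour in `S`, then `z` is adjacent to every vertex
of `S` at distance two from `u`. -/
theorem key (hG : DistanceHereditary G) {S : Set V} (hS : Conn G S) {u z s w y : V}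
    (huS : u ∉ S) (huS' : ∀ x ∈ S, ¬ G.Adj u x) (huz : G.Adj u z) (hs : s ∈ S) (hzs : G.Adj z s)
    (hw : w ∈ S) (hwy : G.Adj w y) (hyu : G.Adj y u) : G.Adj w z := by
  have hc : Conn G (insert u (insert z S)) :=
    (hS.cons hs hzs).cons (Set.mem_insert _ _) huz
  have hconn := hc.connected ⟨u, Set.mem_insert _ _⟩
  have hwH : w ∈ insert u (insert z S) := Set.mem_insert_of_mem _ (Set.mem_insert_of_mem _ hw)
  have huH : u ∈ insert u (insert z S) := Set.mem_insert _ _
  have hwu : w ≠ u := fun h => huS (h ▸ hw)
  have h2 : G.edist w u = 2 := by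
    rw [SimpleGraph.edist_eq_two_iff]
    exact ⟨hwu, fun h => huS' w hw h.symm, ⟨y, hwy, hyu.symm⟩⟩
  have h3 := hG _ hconn ⟨w, hwH⟩ ⟨u, huH⟩
  rw [h2, SimpleGraph.edist_eq_two_iff] at h3
  obtain ⟨-, -, ⟨m, hm⟩, hm1, hm2⟩ := h3
  have hm1 : G.Adj w m := by simpa using hm1
  have hm2 : G.Adj u m := by simpa using hm2
  rcases hm with rfl | rfl | hm
  · exact absurd hm2 (G.loopless.irrefl _)
  · exact hm1
  · exact absurd hm2 (huS' m hm)

theorem conn_singleton (x : V) : Conn G {x} := by
  intro a ha b hb
  rw [Set.mem_singleton_iff] at ha hb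
  subst ha; subst hb
  exact ReflTransGen.refl

theorem conn_pair {x y : V} (h : G.Adj x y) : Conn G {x, y} :=
  (conn_singleton y).cons rfl h

theorem conn_triple {x y z : V} (h : G.Adj x y) (h' : G.Adj y z) : Conn G {x, y, z} :=
  (conn_pair h').cons (Set.mem_insert _ _) h

/-- The ends of an induced path with four vertices have no common neighbour. -/
theorem P4 (hG : DistanceHereditary G) {a b c d z : V} (hab : G.Adj a b) (hbc : G.Adj b c)
    (hcd : G.Adj c d) (hac : ¬ G.Adj a c) (had : ¬ G.Adj a d) (hbd : ¬ G.Adj b d)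
    (haz : G.Adj a z) (hzd : G.Adj z d) : False := by
  have hac' : a ≠ c := fun h => had (h ▸ hcd)
  have had' : a ≠ d := fun h => hac (h ▸ hcd.symm)
  refine hbd (key hG (S := {c, d}) (conn_pair hcd) (u := a) (z := b) (s := c) (w := d) (y := z)
    ?_ ?_ hab (by simp) hbc (by simp) hzd.symm haz.symm).symm
  · simp [hac', had']
  · simp [hac, had]

/-- The ends of an induced path with five vertices have no common neighbour. -/
theorem P5 (hG : DistanceHereditary G) {a b c d e z : V} (hab : G.Adj a b) (hbc : G.Adj b c)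
    (hcd : G.Adj c d) (hde : G.Adj d e) (hac : ¬ G.Adj a c) (had : ¬ G.Adj a d)
    (hae : ¬ G.Adj a e) (hbe : ¬ G.Adj b e)
    (haz : G.Adj a z) (hze : G.Adj z e) : False := by
  have hac' : a ≠ c := fun h => had (h ▸ hcd)
  have had' : a ≠ d := fun h => hae (h ▸ hde)
  have hae' : a ≠ e := fun h => had (h ▸ hde.symm)
  refine hbe (key hG (S := {c, d, e}) (conn_triple hcd hde) (u := a) (z := b) (s := c) (w := e)
    (y := z) ?_ ?_ hab (by simp) hbc (by simp) hze.symm haz.symm).symm
  · simp [hac', had', hae']
  · simp [hac, had, hae]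

end Pool.Agent.MP_0380a0_co
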