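import Mathlib

set_option autoImplicit false

namespace Pool.Agent.MP_0380a0_co

variable {α T : Type*}

/-- The extension of a relation between elements of different colours. -/
def SRel (τ : α → T) (L : α → α → Prop) (x y : α) : Prop :=
  (τ x ≠ τ y ∧ L x y) ∨ (τ x = τ y ∧ ∃ z, τ z ≠ τ x ∧ L x z ∧ L z y)

/-- The axioms of a relation between elements of different colours. -/
structure ColRel (τ : α → T) (L : α → α → Prop) : Prop where
  tot : ∀ x y, τ x ≠ τ y → (L x y ↔ ¬ L y x)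
  tri : ∀ x y z, τ x ≠ τ y → τ y ≠ τ z → τ x ≠ τ z → L x y → L y z → L x z
  sq : ∀ x z y w, τ x = τ y → τ z = τ w → τ x ≠ τ z → L x z → L z y → L y w → L x w

theorem ColRel.sq' {τ : α → T} {L : α → α → Prop} (h : ColRel τ L) {x z y w : α}
    (hxy : τ x = τ y) (hz : τ z ≠ τ x) (hw : τ w ≠ τ x) (h1 : L x z) (h2 : L z y) (h3 : L y w) :
    L x w := by
  by_cases hzw : τ z = τ w
  · exact h.sq x z y w hxy hzw hz.symm h1 h2 h3
  · by_contra hc
    have hwx : L w x := (h.tot w x hw).2 hc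
    by_cases hzw' : L z w
    · have := h.tri z w x hzw hw hz hzw' hwx
      exact (h.tot x z hz.symm).1 h1 this
    · have hwz : L w z := (h.tot w z (Ne.symm hzw)).2 hzw'
      have := h.tri w z y (Ne.symm hzw) (hxy ▸ hz) (hxy ▸ hw) hwz h2
      exact (h.tot y w (hxy ▸ hw.symm)).1 h3 this

theorem SRel.irrefl {τ : α → T} {L : α → α → Prop} (h : ColRel τ L) (x : α) : ¬ SRel τ L x x := by
  rintro (⟨h1, _⟩ | ⟨_, z, hz, h1, h2⟩)
  · exact h1 rfl
  · exact (h.tot x z hz.symm).1 h1 h2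

theorem SRel.trans {τ : α → T} {L : α → α → Prop} (h : ColRel τ L) {x y z : α}
    (hxy : SRel τ L x y) (hyz : SRel τ L y z) : SRel τ L x z := by
  rcases hxy with ⟨c1, h1⟩ | ⟨c1, w, hw, h1, h1'⟩
  · rcases hyz with ⟨c2, h2⟩ | ⟨c2, w', hw', h2, h2'⟩
    · by_cases c3 : τ x = τ z
      · exact Or.inr ⟨c3, y, c1.symm, h1, h2⟩
      · exact Or.inl ⟨c3, h.tri x y z c1 c2 c3 h1 h2⟩
    · have c3 : τ x ≠ τ z := c2 ▸ c1
      refine Or.inl ⟨c3, ?_⟩
      rw [h.tot x z c3]
      intro hzx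
      have := h.sq' (x := y) (z := w') (y := z) (w := x) c2 hw' c1 h2 h2' hzx
      exact (h.tot x y c1).1 h1 this
  · rcases hyz with ⟨c2, h2⟩ | ⟨c2, w', hw', h2, h2'⟩
    · have c3 : τ x ≠ τ z := c1 ▸ c2
      exact Or.inl ⟨c3, h.sq' c1 hw c3.symm h1 h1' h2⟩
    · refine Or.inr ⟨c1.trans c2, w', c1 ▸ hw', ?_, h2'⟩
      exact h.sq' c1 hw (c1 ▸ hw') h1 h1' h2

theorem SRel.neg_trans {τ : α → T} {L : α → α → Prop} (h : ColRel τ L) {x y z : α}
    (hxz : SRel τ L x z) : SRel τ L x y ∨ SRel τ L y z := by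
  rcases hxz with ⟨c1, h1⟩ | ⟨c1, w, hw, h1, h1'⟩
  · by_cases c2 : τ y = τ x
    · have c3 : τ y ≠ τ z := c2 ▸ c1
      by_cases h2 : L y z
      · exact Or.inr (Or.inl ⟨c3, h2⟩)
      · exact Or.inl (Or.inr ⟨c2.symm, z, c1.symm, h1, (h.tot z y c3.symm).2 h2⟩)
    · by_cases h2 : L x y
      · exact Or.inl (Or.inl ⟨Ne.symm c2, h2⟩)
      · have h2' : L y x := (h.tot y x c2).2 h2
        right
        by_cases c3 : τ y = τ z
        · exact Or.inr ⟨c3, x, Ne.symm c2, h2', h1⟩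
        · exact Or.inl ⟨c3, h.tri y x z c2 c1 c3 h2' h1⟩
  · by_cases c2 : τ y = τ x
    · have hwy : τ w ≠ τ y := c2 ▸ hw
      by_cases h2 : L w y
      · exact Or.inl (Or.inr ⟨c2.symm, w, hw, h1, h2⟩)
      · exact Or.inr (Or.inr ⟨c2.trans c1, w, hwy, (h.tot y w hwy.symm).2 h2, h1'⟩)
    · by_cases h2 : L x y
      · exact Or.inl (Or.inl ⟨Ne.symm c2, h2⟩)
      · have h2' : L y x := (h.tot y x c2).2 h2
        have c3 : τ y ≠ τ z := c1 ▸ c2
        refine Or.inr (Or.inl ⟨c3, ?_⟩)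
        rw [h.tot y z c3]
        intro hzy
        exact h2 (h.sq' (x := x) (z := w) (y := z) (w := y) c1 hw c2 h1 h1' hzy)

/-- A coloured relation on a countable set is represented by the order of the rationals. -/
theorem exists_rat [Countable α] {τ : α → T} {L : α → α → Prop} (h : ColRel τ L) :
    ∃ f : α → ℚ, ∀ x y, f x < f y ↔ SRel τ L x y := by
  classical
  letI P : Preorder α :=
    { le := fun x y => ¬ SRel τ L y x
      lt := SRel τ L
      le_refl := fun x => SRel.irrefl h x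
      le_trans := by
        intro x y z h1 h2 h3
        rcases SRel.neg_trans h (y := y) h3 with h4 | h4
        · exact h2 h4
        · exact h1 h4
      lt_iff_le_not_ge := by
        intro x y
        constructor
        · intro h1
          exact ⟨fun h2 => SRel.irrefl h x (SRel.trans h h1 h2), fun h2 => h2 h1⟩
        · rintro ⟨_, h2⟩
          exact not_not.1 h2 }
  haveI : @Std.Total α (· ≤ ·) := ⟨fun x y => by
    by_contra hc
    rw [not_or] at hc
    have h1 : SRel τ L y x := not_not.1 hc.1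
    have h2 : SRel τ L x y := not_not.1 hc.2
    exact SRel.irrefl h x (SRel.trans h h2 h1)⟩
  haveI : Countable (Antisymmetrization α (· ≤ ·)) := by
    unfold Antisymmetrization; infer_instance
  obtain ⟨e⟩ := Order.embedding_from_countable_to_dense (Antisymmetrization α (· ≤ ·)) ℚ
  refine ⟨fun x => e (toAntisymmetrization (· ≤ ·) x), fun x y => ?_⟩
  rw [e.lt_iff_lt, toAntisymmetrization_lt_toAntisymmetrization_iff]
  exact Iff.rfl

end Pool.Agent.MP_0380a0_co
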