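import Mathlib
import Pool.Agent.MP_0380a0_co.Key
import Pool.Agent.MP_0380a0_co.WeakOrder

set_option autoImplicit false

namespace Pool.Agent.MP_0380a0_co

open Relation

variable {V : Type*} {G : SimpleGraph V}

/-! ### Small configurations -/

theorem T1a (hG : DistanceHereditary G) {r v c k p : V} (hrv : G.Adj r v) (hvc : G.Adj v c)
    (hrc : ¬ G.Adj r c) (hrp : G.Adj r p) (hvp : ¬ G.Adj v p)
    (hck : G.Adj c k) (hkp : G.Adj k p) : G.Adj c p := by
  by_contra hcp
  exact P4 hG hrp.symm hrv hvc (fun h => hvp h.symm) (fun h => hcp h.symm) hrc hkp.symm hck.symm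

theorem T1b (hG : DistanceHereditary G) {r v c k p : V} (hvc : G.Adj v c)
    (hrc : ¬ G.Adj r c) (hrk : G.Adj r k) (hvk : G.Adj v k) (hrp : G.Adj r p)
    (hkc : ¬ G.Adj k c) (hcp : G.Adj c p) : G.Adj k p := by
  by_contra hkp
  exact P4 hG hrk.symm hrp hcp.symm hkp hkc hrc hvk.symm hvc

theorem T2a (hG : DistanceHereditary G) {u u' x y z w : V} (huu : G.Adj u u') (hux : G.Adj u x)
    (huy : G.Adj u y) (huw : G.Adj u w) (hz : G.Adj u' z)
    (hw : G.Adj u' w) (hx : ¬ G.Adj u' x) (hy : ¬ G.Adj u' y) (hxz : G.Adj x z)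
    (hyw : G.Adj y w) (hxw : ¬ G.Adj x w) (hyz : ¬ G.Adj y z) : False := by
  by_cases hzw : G.Adj z w
  · by_cases hxy : G.Adj x y
    · exact P4 hG hxy hyw hw.symm hxw (fun h => hx h.symm) (fun h => hy h.symm) hux.symm huu
    · exact P4 hG hxz hzw hyw.symm hxw hxy (fun h => hyz h.symm) hux.symm huy
  · exact P4 hG hxz hz.symm hw (fun h => hx h.symm) hxw hzw hux.symm huw

theorem T2b (hG : DistanceHereditary G) {r v x y z w : V} (hvx : G.Adj v x)
    (hvy : G.Adj v y) (hrx : ¬ G.Adj r x) (hrz : G.Adj r z) (hrw : G.Adj r w)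
    (hrv : G.Adj r v) (hvw : ¬ G.Adj v w) (hxz : G.Adj x z)
    (hyw : G.Adj y w) (hxw : ¬ G.Adj x w) (hyz : ¬ G.Adj y z) : False := by
  by_cases hxy : G.Adj x y
  · exact P4 hG hrw.symm hrv hvx (fun h => hvw h.symm) (fun h => hxw h.symm) hrx hyw.symm hxy.symm
  · exact P5 hG hxz hrz.symm hrw hyw.symm (fun h => hrx h.symm) hxw hxy (fun h => hyz h.symm)
      hvx.symm hvy

theorem SK (hG : DistanceHereditary G) {u u' x y z : V} (huy : G.Adj u y)
    (hux' : G.Adj u' x) (huy' : G.Adj u' y) (huz : G.Adj u z) (huz' : ¬ G.Adj u' z)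
    (hzx : G.Adj z x) (hzy : ¬ G.Adj z y) : G.Adj x y := by
  by_contra hxy
  exact P4 hG huy'.symm hux' hzx.symm (fun h => hxy h.symm) (fun h => hzy h.symm) huz' huy.symm huz

theorem SP (hG : DistanceHereditary G) {u u' x y z : V} (huu : G.Adj u u')
    (huy : G.Adj u y) (hux' : ¬ G.Adj u' x) (huy' : ¬ G.Adj u' y) (huz' : G.Adj u' z)
    (hzx : G.Adj z x) (hzy : ¬ G.Adj z y) : ¬ G.Adj x y := by
  intro hxy
  by_cases huz : G.Adj u z
  · exact P4 hG huz' hzx hxy hux' huy' hzy huu.symm huy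
  · exact P4 hG huy.symm huu huz' (fun h => huy' h.symm) (fun h => hzy h.symm) huz hxy.symm hzx.symm

/-! ### Linked vertices -/

theorem link_adj (hG : DistanceHereditary G) {u u' z z' y y' : V} {S : Set V} (hS : Conn G S)
    (huu : G.Adj u u') (huS : u ∉ S) (hu : ∀ s ∈ S, ¬ G.Adj u s) (hu' : ∀ s ∈ S, ¬ G.Adj u' s)
    (hy : y ∈ S) (hy' : y' ∈ S) (hyz : G.Adj y z) (hyz' : G.Adj y' z') (huz : G.Adj u z)
    (hzu' : u ≠ z') (hor : G.Adj u z' ∨ G.Adj u' z') : G.Adj u z' := by
  by_contra hc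
  have h1 : G.Adj u' z' := hor.resolve_left hc
  refine hu' y hy (key hG (S := insert z' S) (hS.cons hy' hyz'.symm) (u := u) (z := u') (s := z')
    (w := y) (y := z) ?_ ?_ huu (Set.mem_insert _ _) h1 (Set.mem_insert_of_mem _ hy) hyz
    huz.symm).symm
  · rintro (h | h)
    · exact hzu' h
    · exact huS h
  · rintro s (rfl | h)
    · exact hc
    · exact hu s h

theorem link_eqv (hG : DistanceHereditary G) {u u' z z' y y' q : V} {S : Set V} (hS : Conn G S)
    (huu : G.Adj u u') (huS : u ∉ S) (hu : ∀ s ∈ S, ¬ G.Adj u s) (hu' : ∀ s ∈ S, ¬ G.Adj u' s)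
    (hy : y ∈ S) (hy' : y' ∈ S) (hyz : G.Adj y z) (hyz' : G.Adj y' z') (huz : G.Adj u z)
    (huz' : G.Adj u z') (hq : G.Adj u q ∨ G.Adj u' q)
    (hqS : ∀ s ∈ S, ¬ G.Adj s q) (hqz : G.Adj q z) : G.Adj q z' := by
  have h1 : G.Adj y z' := key hG hS (u := u) (z := z') (s := y') (w := y) (y := z) huS hu huz'
    hy' hyz'.symm hy hyz huz.symm
  by_contra hc
  by_cases huq : G.Adj u q
  · exact P4 hG h1 huz'.symm huq (fun h => hu y hy h.symm) (hqS y hy) (fun h => hc h.symm) hyz
      hqz.symm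
  · have h2 : G.Adj u' q := hq.resolve_left huq
    exact P5 hG h1 huz'.symm huu h2 (fun h => hu y hy h.symm) (fun h => hu' y hy h.symm)
      (hqS y hy) (fun h => hc h.symm) hyz hqz.symm

/-! ### Types -/

open Classical in
/-- The type of a vertex with respect to the adjacent vertices `r` and `v`: `0` if it is not
adjacent to `r`, `1` if it is adjacent to both, and `2` if it is adjacent to `r` only. -/
noncomputable def ty (G : SimpleGraph V) (r v x : V) : Fin 3 :=
  if G.Adj r x then (if G.Adj v x then 1 else 2) else 0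

theorem ty_zero {r v x : V} : ty G r v x = 0 ↔ ¬ G.Adj r x := by
  unfold ty; split_ifs <;> simp_all

theorem ty_one {r v x : V} : ty G r v x = 1 ↔ G.Adj r x ∧ G.Adj v x := by
  unfold ty; split_ifs <;> simp_all

theorem ty_two {r v x : V} : ty G r v x = 2 ↔ G.Adj r x ∧ ¬ G.Adj v x := by
  unfold ty; split_ifs <;> simp_all

theorem ty_cases (G : SimpleGraph V) (r v x : V) :
    ty G r v x = 0 ∨ ty G r v x = 1 ∨ ty G r v x = 2 := by
  generalize ty G r v x = a
  revert a; decide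

/-- The order relation between vertices of different types. -/
def lt0 (G : SimpleGraph V) (r v x y : V) : Prop :=
  (ty G r v x < ty G r v y ∧ G.Adj x y) ∨ (ty G r v y < ty G r v x ∧ ¬ G.Adj x y)

theorem lt0_of_lt {r v x y : V} (h : ty G r v x < ty G r v y) : lt0 G r v x y ↔ G.Adj x y := by
  simp [lt0, h, h.not_gt]

theorem lt0_of_gt {r v x y : V} (h : ty G r v y < ty G r v x) : lt0 G r v x y ↔ ¬ G.Adj x y := by
  simp [lt0, h, h.not_gt]

theorem lt0_tot {r v x y : V} (h : ty G r v x ≠ ty G r v y) :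
    lt0 G r v x y ↔ ¬ lt0 G r v y x := by
  rcases lt_or_gt_of_ne h with h | h
  · rw [lt0_of_lt h, lt0_of_gt h, G.adj_comm, not_not]
  · rw [lt0_of_gt h, lt0_of_lt h, G.adj_comm]

theorem crossing (hG : DistanceHereditary G) {r v : V} (hrv : G.Adj r v) {x y z w : V}
    (hx : G.Adj r x ∨ G.Adj v x) (hy : G.Adj r y ∨ G.Adj v y) (hz : G.Adj r z ∨ G.Adj v z)
    (hw : G.Adj r w ∨ G.Adj v w) (hxy : ty G r v x = ty G r v y) (hzw : ty G r v z = ty G r v w)
    (hne : ty G r v x ≠ ty G r v z) (h1 : G.Adj x z) (h2 : G.Adj y w) (h3 : ¬ G.Adj x w)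
    (h4 : ¬ G.Adj y z) : False := by
  rcases ty_cases G r v x with hx' | hx' | hx' <;> rcases ty_cases G r v z with hz' | hz' | hz'
  · exact hne (hx'.trans hz'.symm)
  · -- `x, y` of type `0`, `z, w` of type `1`
    have hy' := hxy.symm.trans hx'
    have hw' := hzw.symm.trans hz'
    rw [ty_zero] at hx' hy'
    rw [ty_one] at hz' hw'
    exact T2a hG hrv.symm (hx.resolve_left hx') (hy.resolve_left hy') hw'.2 hz'.1 hw'.1 hx' hy'
      h1 h2 h3 h4
  · have hy' := hxy.symm.trans hx'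
    have hw' := hzw.symm.trans hz'
    rw [ty_zero] at hx' hy'
    rw [ty_two] at hz' hw'
    exact T2b hG (hx.resolve_left hx') (hy.resolve_left hy') hx' hz'.1 hw'.1 hrv hw'.2 h1 h2 h3 h4
  · have hy' := hxy.symm.trans hx'
    have hw' := hzw.symm.trans hz'
    rw [ty_one] at hx' hy'
    rw [ty_zero] at hz' hw'
    exact T2a hG hrv.symm (hz.resolve_left hz') (hw.resolve_left hw') hy'.2 hx'.1 hy'.1 hz' hw'
      h1.symm h2.symm (fun h => h4 h.symm) (fun h => h3 h.symm)
  · exact hne (hx'.trans hz'.symm)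
  · have hy' := hxy.symm.trans hx'
    have hw' := hzw.symm.trans hz'
    rw [ty_one] at hx' hy'
    rw [ty_two] at hz' hw'
    exact T2a hG hrv hz'.1 hw'.1 hy'.1 hx'.2 hy'.2 hz'.2 hw'.2
      h1.symm h2.symm (fun h => h4 h.symm) (fun h => h3 h.symm)
  · have hy' := hxy.symm.trans hx'
    have hw' := hzw.symm.trans hz'
    rw [ty_two] at hx' hy'
    rw [ty_zero] at hz' hw'
    exact T2b hG (hz.resolve_left hz') (hw.resolve_left hw') hz' hx'.1 hy'.1 hrv hy'.2
      h1.symm h2.symm (fun h => h4 h.symm) (fun h => h3 h.symm)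
  · have hy' := hxy.symm.trans hx'
    have hw' := hzw.symm.trans hz'
    rw [ty_two] at hx' hy'
    rw [ty_one] at hz' hw'
    exact T2a hG hrv hx'.1 hy'.1 hw'.1 hz'.2 hw'.2 hx'.2 hy'.2 h1 h2 h3 h4
  · exact hne (hx'.trans hz'.symm)

theorem colRel (hG : DistanceHereditary G) {r v : V} (hrv : G.Adj r v) {N : Set V}
    (hN : ∀ x ∈ N, G.Adj r x ∨ G.Adj v x) :
    ColRel (fun x : N => ty G r v x) (fun x y : N => lt0 G r v x y) := by
  refine ⟨fun x y h => lt0_tot h, ?_, ?_⟩
  · rintro ⟨x, hx⟩ ⟨y, hy⟩ ⟨z, hz⟩ hxy hyz hxz h1 h2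
    simp only at hxy hyz hxz h1 h2 ⊢
    have hx := hN x hx
    have hy := hN y hy
    have hz := hN z hz
    rcases ty_cases G r v x with hx' | hx' | hx' <;>
      rcases ty_cases G r v y with hy' | hy' | hy' <;>
      rcases ty_cases G r v z with hz' | hz' | hz' <;>
      first
        | exact absurd (hx'.trans hy'.symm) hxy
        | exact absurd (hy'.trans hz'.symm) hyz
        | exact absurd (hx'.trans hz'.symm) hxz
        | skip
    · -- 0 1 2
      rw [lt0_of_lt (by rw [hx', hy']; decide)] at h1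
      rw [lt0_of_lt (by rw [hy', hz']; decide)] at h2
      rw [lt0_of_lt (by rw [hx', hz']; decide)]
      rw [ty_zero] at hx'
      rw [ty_one] at hy'
      rw [ty_two] at hz'
      exact T1a hG hrv (hx.resolve_left hx') hx' hz'.1 hz'.2 h1 h2
    · -- 0 2 1
      rw [lt0_of_lt (by rw [hx', hy']; decide)] at h1
      rw [lt0_of_gt (by rw [hy', hz']; decide)] at h2
      rw [lt0_of_lt (by rw [hx', hz']; decide)]
      rw [ty_zero] at hx'
      rw [ty_two] at hy'
      rw [ty_one] at hz'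
      by_contra hc
      exact h2 (T1b hG (hx.resolve_left hx') hx' hz'.1 hz'.2 hy'.1 (fun h => hc h.symm) h1).symm
    · -- 1 0 2
      rw [lt0_of_gt (by rw [hx', hy']; decide)] at h1
      rw [lt0_of_lt (by rw [hy', hz']; decide)] at h2
      rw [lt0_of_lt (by rw [hx', hz']; decide)]
      rw [ty_one] at hx'
      rw [ty_zero] at hy'
      rw [ty_two] at hz'
      exact T1b hG (hy.resolve_left hy') hy' hx'.1 hx'.2 hz'.1 h1 h2
    · -- 1 2 0
      rw [lt0_of_lt (by rw [hx', hy']; decide)] at h1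
      rw [lt0_of_gt (by rw [hy', hz']; decide)] at h2
      rw [lt0_of_gt (by rw [hx', hz']; decide)]
      rw [ty_one] at hx'
      rw [ty_two] at hy'
      rw [ty_zero] at hz'
      intro hc
      exact h2 (T1a hG hrv (hz.resolve_left hz') hz' hy'.1 hy'.2 hc.symm h1).symm
    · -- 2 0 1
      rw [lt0_of_gt (by rw [hx', hy']; decide)] at h1
      rw [lt0_of_lt (by rw [hy', hz']; decide)] at h2
      rw [lt0_of_gt (by rw [hx', hz']; decide)]
      rw [ty_two] at hx'
      rw [ty_zero] at hy'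
      rw [ty_one] at hz'
      intro hc
      exact h1 (T1a hG hrv (hy.resolve_left hy') hy' hx'.1 hx'.2 h2 hc.symm).symm
    · -- 2 1 0
      rw [lt0_of_gt (by rw [hx', hy']; decide)] at h1
      rw [lt0_of_gt (by rw [hy', hz']; decide)] at h2
      rw [lt0_of_gt (by rw [hx', hz']; decide)]
      rw [ty_two] at hx'
      rw [ty_one] at hy'
      rw [ty_zero] at hz'
      intro hc
      exact h1 (T1b hG (hz.resolve_left hz') hz' hy'.1 hy'.2 hx'.1 h2 hc.symm).symm
  · rintro ⟨x, hx⟩ ⟨z, hz⟩ ⟨y, hy⟩ ⟨w, hw⟩ hxy hzw hxz h1 h2 h3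
    simp only at hxy hzw hxz h1 h2 h3 ⊢
    have hx := hN x hx
    have hy := hN y hy
    have hz := hN z hz
    have hw := hN w hw
    rcases lt_or_gt_of_ne hxz with hlt | hlt
    · rw [lt0_of_lt hlt] at h1
      rw [lt0_of_gt (hxy ▸ hlt)] at h2
      rw [lt0_of_lt (hxy ▸ hzw ▸ hlt)] at h3
      rw [lt0_of_lt (hzw ▸ hlt)]
      by_contra hc
      exact crossing hG hrv hx hy hz hw hxy hzw hxz h1 h3 hc (fun h => h2 h.symm)
    · rw [lt0_of_gt hlt] at h1
      rw [lt0_of_lt (hxy ▸ hlt)] at h2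
      rw [lt0_of_gt (hxy ▸ hzw ▸ hlt)] at h3
      rw [lt0_of_gt (hzw ▸ hlt)]
      intro hc
      exact crossing hG hrv hx hy hw hz hxy hzw.symm (hzw ▸ hxz) hc h2.symm h1 h3

/-- Adjacency of separated vertices of the same type. -/
theorem adj_of_sep (hG : DistanceHereditary G) {r v : V} (hrv : G.Adj r v) {x y z : V}
    (hx : G.Adj r x ∨ G.Adj v x) (hy : G.Adj r y ∨ G.Adj v y) (hz : G.Adj r z ∨ G.Adj v z)
    (hxy : ty G r v x = ty G r v y) (hxz : ty G r v z ≠ ty G r v x)
    (h1 : lt0 G r v x z) (h2 : lt0 G r v z y) : G.Adj x y ↔ ty G r v x = 1 := by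
  rcases ty_cases G r v x with hx' | hx' | hx'
  · -- type `0`
    have hy' := hxy.symm.trans hx'
    have hlt : ty G r v x < ty G r v z := by
      rw [hx'] at hxz ⊢
      exact Fin.pos_of_ne_zero hxz
    rw [lt0_of_lt hlt] at h1
    rw [lt0_of_gt (hxy ▸ hlt)] at h2
    rw [hx'] at hxz ⊢
    rw [ty_zero] at hx' hy'
    have hz' : G.Adj r z := by
      by_contra hc
      exact hxz (ty_zero.2 hc)
    have := SP hG hrv.symm (hy.resolve_left hy') hx' hy' hz' h1.symm h2
    simp [this]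
  · -- type `1`
    have hy' := hxy.symm.trans hx'
    simp only [hx', iff_true]
    rcases ty_cases G r v z with hz' | hz' | hz'
    · rw [lt0_of_gt (by rw [hx', hz']; decide)] at h1
      rw [lt0_of_lt (by rw [hy', hz']; decide)] at h2
      rw [ty_one] at hx' hy'
      rw [ty_zero] at hz'
      exact (SK hG hx'.2 hy'.1 hx'.1 (hz.resolve_left hz') hz' h2 (fun h => h1 h.symm)).symm
    · exact absurd (hz'.trans hx'.symm) hxz
    · rw [lt0_of_lt (by rw [hx', hz']; decide)] at h1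
      rw [lt0_of_gt (by rw [hy', hz']; decide)] at h2
      rw [ty_one] at hx' hy'
      rw [ty_two] at hz'
      exact SK hG hy'.1 hx'.2 hy'.2 hz'.1 hz'.2 h1.symm h2
  · -- type `2`
    have hy' := hxy.symm.trans hx'
    have hlt : ty G r v z < ty G r v x := by
      rw [hx'] at hxz ⊢
      revert hxz
      generalize ty G r v z = a
      revert a; decide
    rw [lt0_of_gt hlt] at h1
    rw [lt0_of_lt (hxy ▸ hlt)] at h2
    rw [hx'] at hxz ⊢
    rw [ty_two] at hx' hy'
    have hz' : G.Adj v z := by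
      by_contra hc
      rcases hz with hz | hz
      · exact hxz (ty_two.2 ⟨hz, hc⟩)
      · exact hc hz
    have := SP hG hrv hx'.1 hy'.2 hx'.2 hz' h2 (fun h => h1 h.symm)
    constructor
    · intro h; exact absurd h.symm this
    · intro h; exact absurd h (by decide)

end Pool.Agent.MP_0380a0_co
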