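import Mathlib
import Pool.Agent.MP_0380a0_co.Decomp

set_option autoImplicit false

namespace Pool.Agent.MP_0380a0_co

open Relation

variable {V : Type*} {G : SimpleGraph V}

/-- The letters: pairs of a rational position and a colour, ordered lexicographically. -/
abbrev Letter : Type := ℚ ×ₗ Fin 3

/-- The colour of a letter. -/
def col (a : Letter) : Fin 3 := (ofLex a).2

open Classical in
/-- The root of the class with the given letter. -/
noncomputable def rt (r v : V) (a : Letter) : V := if col a = 0 then v else r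

/-- The vertex set `B` with root `r` and first vertex `v` is decomposed by the letters `L`. -/
structure StepData (G : SimpleGraph V) (B : Set V) (r v : V) (L : V → Letter) : Prop where
  adj_v : ∀ x ∈ B, x ≠ v → (G.Adj v x ↔ col (L x) ≠ 2 ∧ G.Adj (rt r v (L x)) x)
  adj_r : ∀ x ∈ B, x ≠ v → (G.Adj r x ↔ col (L x) ≠ 0 ∧ G.Adj (rt r v (L x)) x)
  adj_lt : ∀ x ∈ B, x ≠ v → ∀ y ∈ B, y ≠ v → L x < L y →
    (G.Adj x y ↔ col (L x) ≠ 2 ∧ G.Adj (rt r v (L x)) x ∧ G.Adj r y)
  conn : ∀ x ∈ B, x ≠ v →
    ReflTransGen (Step G {y | y ∈ B ∧ y ≠ v ∧ L y = L x}) (rt r v (L x)) x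

theorem exists_stepData [Countable V] (hG : DistanceHereditary G) {B : Set V} {r v : V}
    (hrB : r ∉ B) (hconn : ∀ x ∈ B, ReflTransGen (Step G B) r x) (hrv : G.Adj r v) :
    ∃ L : V → Letter, StepData G B r v L := by
  classical
  set N : Set V := {x | x ∈ B ∧ x ≠ v ∧ (G.Adj r x ∨ G.Adj v x)} with hN
  set W : Set V := {x | x ∈ B ∧ x ≠ v ∧ ¬ G.Adj r x ∧ ¬ G.Adj v x} with hW
  have hNW : ∀ x ∈ B, x ≠ v → x ∈ N ∨ x ∈ W := by
    intro x hx hxv
    by_cases h : G.Adj r x ∨ G.Adj v x
    · exact Or.inl ⟨hx, hxv, h⟩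
    · rw [not_or] at h
      exact Or.inr ⟨hx, hxv, h.1, h.2⟩
  have hdisj : ∀ x ∈ W, x ∉ N := by
    rintro x ⟨_, _, h1, h2⟩ ⟨_, _, h3⟩
    exact h3.elim h1 h2
  have hrx : ∀ x ∈ B, r ≠ x := fun x hx h => hrB (h ▸ hx)
  -- linked vertices
  let Lk : V → V → Prop := fun x z => ∃ y, ReflTransGen (Step G W) x y ∧ G.Adj y z ∧ z ∈ N
  have hlink : ∀ x ∈ W, ∃ z, Lk x z := by
    have key : ∀ x, ReflTransGen (Step G B) r x → x ∈ W → ∃ z, Lk x z := by
      intro x h
      induction h with
      | refl => intro hr; exact absurd hr.1 hrB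
      | @tail a b hra hab ih =>
        intro hb
        have hadj : G.Adj a b := hab.1
        have har : a ≠ r := by rintro rfl; exact hb.2.2.1 hadj
        have hav : a ≠ v := by rintro rfl; exact hb.2.2.2 hadj
        have haB : a ∈ B := by
          cases hra with
          | refl => exact absurd rfl har
          | tail _ h => exact h.2
        rcases hNW a haB hav with haN | haW
        · exact ⟨a, b, ReflTransGen.refl, hadj.symm, haN⟩
        · obtain ⟨z, y, h1, h2, h3⟩ := ih haW
          exact ⟨z, y, ReflTransGen.head ⟨hadj.symm, haW⟩ h1, h2, h3⟩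
    intro x hx
    exact key x (hconn x hx.1) hx
  -- the component of `x` in `W`
  let Cp : V → Set V := fun x => {y | ReflTransGen (Step G W) x y}
  have hCpW : ∀ x ∈ W, ∀ y ∈ Cp x, y ∈ W := fun x hx y hy => reflTransGen_mem hx hy
  have hCp1 : ∀ x ∈ W, ∀ y ∈ Cp x, ReflTransGen (Step G (Cp x)) x y := by
    intro x hx y hy
    change ReflTransGen (Step G W) x y at hy
    induction hy with
    | refl => exact ReflTransGen.refl
    | tail h1 h2 ih => exact ih.tail ⟨h2.1, h1.tail h2⟩
  have hCp : ∀ x ∈ W, Conn G (Cp x) := by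
    intro x hx a ha b hb
    exact (reflTransGen_symm (ReflTransGen.refl : ReflTransGen (Step G W) x x)
      (hCp1 x hx a ha)).trans (hCp1 x hx b hb)
  have hCpu : ∀ x ∈ W, ∀ u, (u = r ∨ u = v) → u ∉ Cp x := by
    intro x hx u hu hc
    have := hCpW x hx u hc
    rcases hu with rfl | rfl
    · exact hrB this.1
    · exact this.2.1 rfl
  -- linked vertices have the same adjacencies to `r` and `v`
  have hadj1 : ∀ x ∈ W, ∀ z z', Lk x z → Lk x z' → (G.Adj r z → G.Adj r z') ∧
      (G.Adj v z → G.Adj v z') := by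
    rintro x hx z z' ⟨y, h1, h2, h3⟩ ⟨y', h1', h2', h3'⟩
    constructor
    · intro h
      exact link_adj hG (hCp x hx) hrv (hCpu x hx r (Or.inl rfl))
        (fun s hs => (hCpW x hx s hs).2.2.1) (fun s hs => (hCpW x hx s hs).2.2.2) h1 h1' h2 h2'
        h (hrx z' h3'.1) h3'.2.2
    · intro h
      exact link_adj hG (hCp x hx) hrv.symm (hCpu x hx v (Or.inr rfl))
        (fun s hs => (hCpW x hx s hs).2.2.2) (fun s hs => (hCpW x hx s hs).2.2.1) h1 h1' h2 h2'
        h h3'.2.1.symm h3'.2.2.symm
  have hty : ∀ x ∈ W, ∀ z z', Lk x z → Lk x z' → ty G r v z = ty G r v z' := by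
    intro x hx z z' h h'
    have h1 := hadj1 x hx z z' h h'
    have h2 := hadj1 x hx z' z h' h
    have e1 : G.Adj r z ↔ G.Adj r z' := ⟨h1.1, h2.1⟩
    have e2 : G.Adj v z ↔ G.Adj v z' := ⟨h1.2, h2.2⟩
    unfold ty
    simp only [e1, e2]
  have heqv : ∀ x ∈ W, ∀ z z', Lk x z → Lk x z' → ∀ q ∈ N, ty G r v q ≠ ty G r v z →
      G.Adj q z → G.Adj q z' := by
    intro x hx z z' h h' q hq hqz hadj
    have hqS : ∀ s ∈ Cp x, ¬ G.Adj s q := by
      intro s hs hsq
      exact hqz (hty x hx q z ⟨s, hs, hsq, hq⟩ h)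
    have h1 := hadj1 x hx z z' h h'
    obtain ⟨y, h2, h3, h4⟩ := h
    obtain ⟨y', h2', h3', h4'⟩ := h'
    rcases h4.2.2 with hz | hz
    · exact link_eqv hG (hCp x hx) hrv (hCpu x hx r (Or.inl rfl))
        (fun s hs => (hCpW x hx s hs).2.2.1) (fun s hs => (hCpW x hx s hs).2.2.2) h2 h2' h3 h3'
        hz (h1.1 hz) hq.2.2 hqS hadj
    · exact link_eqv hG (hCp x hx) hrv.symm (hCpu x hx v (Or.inr rfl))
        (fun s hs => (hCpW x hx s hs).2.2.2) (fun s hs => (hCpW x hx s hs).2.2.1) h2 h2' h3 h3'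
        hz (h1.2 hz) hq.2.2.symm hqS hadj
  -- the positions
  obtain ⟨f, hf⟩ := exists_rat (colRel hG hrv (N := N) (fun x hx => hx.2.2))
  let g : V → ℚ := fun x => if h : x ∈ N then f ⟨x, h⟩ else 0
  have hg : ∀ x ∈ N, ∀ y ∈ N, (g x < g y ↔
      ((ty G r v x ≠ ty G r v y ∧ lt0 G r v x y) ∨
        (ty G r v x = ty G r v y ∧ ∃ z ∈ N, ty G r v z ≠ ty G r v x ∧ lt0 G r v x z ∧
          lt0 G r v z y))) := by
    intro x hx y hy
    simp only [g, hx, hy, dif_pos, hf, SRel, Subtype.exists, exists_prop]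
  have hgty : ∀ x ∈ N, ∀ y ∈ N, g x = g y → ty G r v x = ty G r v y := by
    intro x hx y hy h
    by_contra hne
    by_cases hl : lt0 G r v x y
    · exact ((hg x hx y hy).2 (Or.inl ⟨hne, hl⟩)).ne h
    · exact ((hg y hy x hx).2 (Or.inl ⟨Ne.symm hne, (lt0_tot (Ne.symm hne)).2 hl⟩)).ne h.symm
  have hglk : ∀ x ∈ W, ∀ z z', Lk x z → Lk x z' → g z = g z' := by
    have key : ∀ x ∈ W, ∀ z z', Lk x z → Lk x z' → ¬ g z < g z' := by
      intro x hx z z' h h' hlt
      have hzN : z ∈ N := h.choose_spec.2.2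
      have hzN' : z' ∈ N := h'.choose_spec.2.2
      have e := hty x hx z z' h h'
      rcases (hg z hzN z' hzN').1 hlt with ⟨h1, _⟩ | ⟨_, q, hq, hqz, h2, h3⟩
      · exact h1 e
      · have hadj : G.Adj q z ↔ G.Adj q z' :=
          ⟨heqv x hx z z' h h' q hq hqz, heqv x hx z' z h' h q hq (e ▸ hqz)⟩
        have h4 : ¬ lt0 G r v q z := (lt0_tot hqz.symm).1 h2
        apply h4
        unfold lt0 at h3 ⊢
        rw [e, hadj]
        exact h3
    intro x hx z z' h h'
    exact le_antisymm (not_lt.1 (key x hx z' z h' h)) (not_lt.1 (key x hx z z' h h'))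
  -- the representatives
  let rep : V → V := fun x => if h : x ∈ W then (hlink x h).choose else x
  have hrepW : ∀ x ∈ W, Lk x (rep x) := by
    intro x hx
    simp only [rep, hx, dif_pos]
    exact (hlink x hx).choose_spec
  have hrepN : ∀ x, x ∉ W → rep x = x := by
    intro x hx
    simp only [rep, hx, dif_neg, not_false_eq_true]
  let L : V → Letter := fun x => toLex (g (rep x), ty G r v (rep x))
  have hcol : ∀ x, col (L x) = ty G r v (rep x) := fun x => rfl
  have hLN : ∀ x ∈ N, L x = toLex (g x, ty G r v x) := by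
    intro x hx
    simp only [L, hrepN x (fun h => hdisj x h hx)]
  have hLlk : ∀ x ∈ W, ∀ z, Lk x z → L x = toLex (g z, ty G r v z) := by
    intro x hx z hz
    simp only [L]
    rw [hglk x hx _ z (hrepW x hx) hz, hty x hx _ z (hrepW x hx) hz]
  have hLadj : ∀ x ∈ W, ∀ y ∈ B, y ≠ v → G.Adj x y → L y = L x := by
    intro x hx y hy hyv hxy
    rcases hNW y hy hyv with hyN | hyW
    · rw [hLN y hyN, hLlk x hx y ⟨x, ReflTransGen.refl, hxy, hyN⟩]
    · obtain ⟨y2, h1, h2, h3⟩ := hrepW y hyW
      rw [hLlk x hx (rep y) ⟨y2, ReflTransGen.head ⟨hxy, hyW⟩ h1, h2, h3⟩]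
  have hrtW : ∀ x ∈ W, ∀ a, ¬ G.Adj (rt r v a) x := by
    intro x hx a
    unfold rt
    split_ifs
    · exact hx.2.2.2
    · exact hx.2.2.1
  have hrtN : ∀ x ∈ N, G.Adj (rt r v (L x)) x := by
    intro x hx
    unfold rt
    rw [hcol, hrepN x (fun h => hdisj x h hx)]
    split_ifs with h
    · rw [ty_zero] at h
      exact hx.2.2.resolve_left h
    · rw [ty_zero, not_not] at h
      exact h
  refine ⟨L, ?_, ?_, ?_, ?_⟩
  · intro x hx hxv
    rcases hNW x hx hxv with hxN | hxW
    · simp only [hrtN x hxN, and_true]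
      rw [hcol, hrepN x (fun h => hdisj x h hxN), Ne, ty_two]
      have := hxN.2.2
      tauto
    · simp only [hrtW x hxW, and_false, iff_false]
      exact hxW.2.2.2
  · intro x hx hxv
    rcases hNW x hx hxv with hxN | hxW
    · simp only [hrtN x hxN, and_true]
      rw [hcol, hrepN x (fun h => hdisj x h hxN), Ne, ty_zero]
      tauto
    · simp only [hrtW x hxW, and_false, iff_false]
      exact hxW.2.2.1
  · intro x hx hxv y hy hyv hlt
    rcases hNW x hx hxv with hxN | hxW
    · rcases hNW y hy hyv with hyN | hyW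
      · simp only [hrtN x hxN, true_and]
        rw [hcol, hrepN x (fun h => hdisj x h hxN)]
        rw [hLN x hxN, hLN y hyN, Prod.Lex.toLex_lt_toLex] at hlt
        have hlt' : g x < g y := by
          rcases hlt with h | ⟨h, h'⟩
          · exact h
          · simp only at h h'
            rw [hgty x hxN y hyN h] at h'
            exact absurd h' (lt_irrefl _)
        rcases (hg x hxN y hyN).1 hlt' with ⟨h1, h2⟩ | ⟨h1, z, hz, h2, h3, h4⟩
        · have e1 : G.Adj r y ↔ ty G r v y ≠ 0 := by rw [Ne, ty_zero, not_not]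
          rw [e1]
          rcases lt_or_gt_of_ne h1 with h | h
          · rw [lt0_of_lt h] at h2
            simp only [h2, true_iff]
            constructor
            · intro h5; rw [h5] at h; revert h
              generalize ty G r v y = a
              revert a; decide
            · intro h5; rw [h5] at h; revert h
              generalize ty G r v x = a
              revert a; decide
          · rw [lt0_of_gt h] at h2
            simp only [h2, false_iff, not_and, not_not]
            intro h5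
            revert h h5
            generalize ty G r v x = a
            generalize ty G r v y = b
            revert a b; decide
        · rw [adj_of_sep hG hrv hxN.2.2 hyN.2.2 hz.2.2 h1 h2 h3 h4]
          have e1 : G.Adj r y ↔ ty G r v x ≠ 0 := by rw [h1, Ne, ty_zero, not_not]
          rw [e1]
          generalize ty G r v x = a
          revert a; decide
      · have h1 : ¬ G.Adj x y := by
          intro h
          rw [hLadj y hyW x hx hxv h.symm] at hlt
          exact lt_irrefl _ hlt
        simp only [h1, hyW.2.2.1, and_false]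
    · have h1 : ¬ G.Adj x y := by
        intro h
        rw [hLadj x hxW y hy hyv h] at hlt
        exact lt_irrefl _ hlt
      simp only [h1, hrtW x hxW, and_false, false_and]
  · intro x hx hxv
    rcases hNW x hx hxv with hxN | hxW
    · exact ReflTransGen.single ⟨hrtN x hxN, hx, hxv, rfl⟩
    · have key : ∀ y, ReflTransGen (Step G W) x y → y ∈ W ∧ L y = L x ∧
          ReflTransGen (Step G {y | y ∈ B ∧ y ≠ v ∧ L y = L x}) y x := by
        intro y hy
        induction hy with
        | refl => exact ⟨hxW, rfl, ReflTransGen.refl⟩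
        | @tail b c h1 h2 ih =>
          obtain ⟨hb, hLb, ihb⟩ := ih
          have hc : c ∈ W := h2.2
          have hLc : L c = L x := (hLadj b hb c hc.1 hc.2.1 h2.1).trans hLb
          exact ⟨hc, hLc, ReflTransGen.head ⟨h2.1.symm, hb.1, hb.2.1, hLb⟩ ihb⟩
      obtain ⟨y, h1, h2, h3⟩ := hrepW x hxW
      obtain ⟨hy, hLy, hyx⟩ := key y h1
      have hLz : L (rep x) = L x := (hLadj y hy (rep x) h3.1 h3.2.1 h2).trans hLy
      have hstep1 : Step G {y | y ∈ B ∧ y ≠ v ∧ L y = L x} (rep x) y :=
        ⟨h2.symm, hy.1, hy.2.1, hLy⟩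
      have hstep0 : Step G {y | y ∈ B ∧ y ≠ v ∧ L y = L x} (rt r v (L x)) (rep x) := by
        refine ⟨?_, h3.1, h3.2.1, hLz⟩
        rw [← hLz]
        exact hrtN (rep x) h3
      exact ReflTransGen.head hstep0 (ReflTransGen.head hstep1 hyx)

end Pool.Agent.MP_0380a0_co
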