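import Mathlib
import Pool.Agent.MP_0380a0_co.Criterion

set_option autoImplicit false

namespace Pool.Agent.MP_0380a0_co

variable {Λ : Type*} [LinearOrder Λ] (c : Λ → Fin 3)

/-- A word is *open* if none of its letters has colour `0`. -/
def Open (l : List Λ) : Prop := ∀ a ∈ l, c a ≠ 0

/-- Adjacency of words. -/
def WAdj : List Λ → List Λ → Prop
  | [], [] => False
  | [], (b :: m) => c b ≠ 2 ∧ Open c m
  | (a :: l), [] => c a ≠ 2 ∧ Open c l
  | (a :: l), (b :: m) =>
    (a = b ∧ WAdj l m) ∨ (a < b ∧ c a ≠ 2 ∧ Open c l ∧ Open c (b :: m)) ∨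
      (b < a ∧ c b ≠ 2 ∧ Open c m ∧ Open c (a :: l))

theorem open_nil : Open c ([] : List Λ) := by
  intro a ha; simp at ha

theorem open_cons (a : Λ) (l : List Λ) : Open c (a :: l) ↔ c a ≠ 0 ∧ Open c l := by
  simp [Open]

theorem WAdj.symm' : ∀ l m : List Λ, WAdj c l m → WAdj c m l
  | [], [], h => h
  | [], (_ :: _), h => h
  | (_ :: _), [], h => h
  | (a :: l), (b :: m), h => by
    rcases h with ⟨h1, h2⟩ | h | h
    · exact Or.inl ⟨h1.symm, WAdj.symm' l m h2⟩
    · exact Or.inr (Or.inr h)
    · exact Or.inr (Or.inl h)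

theorem WAdj.irrefl' : ∀ l : List Λ, ¬ WAdj c l l
  | [], h => h
  | (a :: l), h => by
    rcases h with ⟨_, h2⟩ | ⟨h, _⟩ | ⟨h, _⟩
    · exact WAdj.irrefl' l h2
    · exact lt_irrefl _ h
    · exact lt_irrefl _ h

/-- The graph of words. -/
def WG : SimpleGraph (List Λ) where
  Adj := WAdj c
  symm := ⟨fun l m h => WAdj.symm' c l m h⟩
  loopless := ⟨fun l h => WAdj.irrefl' c l h⟩

/-- The first letter, or `⊤` for the empty word. -/
def headKey : List Λ → WithTop Λ
  | [] => ⊤
  | (a :: _) => (a : WithTop Λ)

theorem wAdj_of_lt {a : Λ} {l m : List Λ} (h : headKey (a :: l) < headKey m) :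
    WAdj c (a :: l) m ↔ (c a ≠ 2 ∧ Open c l) ∧ Open c m := by
  cases m with
  | nil => simp [WAdj, open_nil]
  | cons b m =>
    have hab : a < b := by simpa [headKey] using h
    simp only [WAdj]
    constructor
    · rintro (⟨h1, _⟩ | h | ⟨h1, _⟩)
      · exact absurd h1 hab.ne
      · exact ⟨⟨h.2.1, h.2.2.1⟩, h.2.2.2⟩
      · exact absurd h1 hab.not_gt
    · rintro ⟨⟨h1, h2⟩, h3⟩
      exact Or.inr (Or.inl ⟨hab, h1, h2, h3⟩)

theorem wAdj_cons (a : Λ) (l m : List Λ) : WAdj c (a :: l) (a :: m) ↔ WAdj c l m := by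
  simp [WAdj]

/-- The inductive invariant used to find twins or pendant vertices. -/
def Good (S : Finset (List Λ)) : Prop :=
  ∃ u ∈ S, ∃ v ∈ S, u ≠ v ∧ ∃ (A B O : Prop) (f : List Λ → Prop),
    (Open c u ↔ O ∧ A) ∧ (Open c v ↔ O ∧ B) ∧
      ∀ x ∈ S, x ≠ u → x ≠ v → (WAdj c x u ↔ f x ∧ A) ∧ (WAdj c x v ↔ f x ∧ B)

theorem good (n : ℕ) : ∀ S : Finset (List Λ), (∀ x ∈ S, x.length ≤ n) → 2 ≤ S.card →
    Good c S := by
  classical
  induction n with
  | zero =>
    intro S hS hcard
    obtain ⟨x, hx, y, hy, hxy⟩ := Finset.one_lt_card.1 (show 1 < S.card by omega)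
    have h1 := List.length_eq_zero_iff.1 (Nat.le_zero.1 (hS x hx))
    have h2 := List.length_eq_zero_iff.1 (Nat.le_zero.1 (hS y hy))
    exact absurd (h1.trans h2.symm) hxy
  | succ n ih =>
    intro S hS hcard
    by_cases h : ∃ (a : Λ) (l m : List Λ), (a :: l) ∈ S ∧ (a :: m) ∈ S ∧ l ≠ m
    · obtain ⟨a, l, m, hl, hm, hlm⟩ := h
      -- the tails of the words with first letter `a`
      let T : Finset (List Λ) := (S.filter (fun x => ∃ t, x = a :: t)).image List.tail
      have hT : ∀ t, t ∈ T ↔ (a :: t) ∈ S := by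
        intro t
        simp only [T, Finset.mem_image, Finset.mem_filter]
        constructor
        · rintro ⟨x, ⟨hx, t', rfl⟩, ht⟩
          simp only [List.tail_cons] at ht
          rwa [← ht]
        · intro ht
          exact ⟨a :: t, ⟨ht, t, rfl⟩, rfl⟩
      obtain ⟨u, hu, v, hv, huv, A, B, O, f, h1, h2, h3⟩ := ih T
        (by
          intro t ht
          have := hS _ ((hT t).1 ht)
          simpa using this)
        (Finset.one_lt_card.2 ⟨l, (hT l).2 hl, m, (hT m).2 hm, hlm⟩)
      refine ⟨a :: u, (hT u).1 hu, a :: v, (hT v).1 hv, by simpa using huv, A, B, c a ≠ 0 ∧ O,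
        fun x => match x with
          | [] => c a ≠ 2 ∧ O
          | (b :: t) => (b = a ∧ f t) ∨ (b < a ∧ (c b ≠ 2 ∧ Open c t) ∧ c a ≠ 0 ∧ O) ∨
              (a < b ∧ c a ≠ 2 ∧ O ∧ Open c (b :: t)), ?_, ?_, ?_⟩
      · rw [open_cons, h1]; tauto
      · rw [open_cons, h2]; tauto
      · intro x hx hxu hxv
        cases x with
        | nil => simp only [WAdj, h1, h2]; tauto
        | cons b t =>
          rcases lt_trichotomy b a with hba | rfl | hba
          · have e1 : b ≠ a := hba.ne
            have e2 : ¬ a < b := hba.not_gt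
            rw [wAdj_of_lt c (by simpa [headKey] using hba),
              wAdj_of_lt c (by simpa [headKey] using hba), open_cons, open_cons, h1, h2]
            simp only [e1, e2, hba, false_and, or_false, false_or, true_and]
            tauto
          · have ht : t ∈ T := (hT t).2 hx
            have := h3 t ht (by rintro rfl; exact hxu rfl) (by rintro rfl; exact hxv rfl)
            simp only [wAdj_cons, lt_irrefl, false_and, or_false, true_and]
            exact this
          · have e1 : b ≠ a := hba.ne'
            have e2 : ¬ b < a := hba.not_gt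
            have hs : ∀ w, WAdj c (b :: t) (a :: w) ↔ WAdj c (a :: w) (b :: t) :=
              fun w => ⟨WAdj.symm' c _ _, WAdj.symm' c _ _⟩
            rw [hs, hs, wAdj_of_lt c (by simpa [headKey] using hba),
              wAdj_of_lt c (by simpa [headKey] using hba), h1, h2]
            simp only [e1, e2, hba, false_and, or_false, false_or, true_and]
            tauto
    · push Not at h
      have hinj : ∀ x ∈ S, ∀ y ∈ S, headKey x = headKey y → x = y := by
        intro x hx y hy hxy
        cases x with
        | nil =>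
          cases y with
          | nil => rfl
          | cons b m => simp [headKey] at hxy
        | cons a l =>
          cases y with
          | nil => simp [headKey] at hxy
          | cons b m =>
            have hab : a = b := by simpa [headKey] using hxy
            subst hab
            rw [h a l m hx hy]
      obtain ⟨v, hv, hvmax⟩ := S.exists_max_image headKey
        (Finset.card_pos.1 (by omega))
      obtain ⟨u, hu, humax⟩ := (S.erase v).exists_max_image headKey
        (Finset.card_pos.1 (by rw [Finset.card_erase_of_mem hv]; omega))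
      rw [Finset.mem_erase] at hu
      refine ⟨u, hu.2, v, hv, hu.1, Open c u, Open c v, True,
        fun x => match x with
          | [] => False
          | (b :: t) => c b ≠ 2 ∧ Open c t, by simp, by simp, ?_⟩
      intro x hx hxu hxv
      have hlt1 : headKey x < headKey u :=
        lt_of_le_of_ne (humax x (Finset.mem_erase.2 ⟨hxv, hx⟩))
          (fun e => hxu (hinj x hx u hu.2 e))
      have hlt2 : headKey x < headKey v :=
        lt_of_le_of_ne (hvmax x hx) (fun e => hxv (hinj x hx v hv e))
      cases x with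
      | nil => simp [headKey] at hlt1
      | cons b t => exact ⟨wAdj_of_lt c hlt1, wAdj_of_lt c hlt2⟩

theorem red_pendant {V : Type*} {G : SimpleGraph V} {S : Finset V} (hcard : 3 ≤ S.card)
    {u v : V} (hu : u ∈ S) (hv : v ∈ S) (huv : u ≠ v)
    (h : ∀ x ∈ S, x ≠ u → x ≠ v → ¬ G.Adj x u) : Red G S := by
  classical
  right
  refine ⟨S.erase u, {u, v}, Finset.erase_ssubset hu, ?_, ?_, ?_, ?_⟩
  · refine Finset.ssubset_iff_subset_ne.2 ⟨?_, ?_⟩
    · intro x hx
      simp only [Finset.mem_insert, Finset.mem_singleton] at hx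
      rcases hx with rfl | rfl <;> assumption
    · intro e
      rw [← e, Finset.card_pair huv] at hcard
      omega
  · intro x hx
    by_cases hxu : x = u
    · right; simp [hxu]
    · left; simp [hxu, hx]
  · intro x y hx1 hx2 hy1 hy2
    simp only [Finset.mem_erase, Finset.mem_insert, Finset.mem_singleton] at hx1 hx2 hy1 hy2
    have e1 : x = v := hx2.resolve_left hx1.1
    have e2 : y = v := hy2.resolve_left hy1.1
    rw [e1, e2]
  · intro x y hx1 hx2 hy1 hy2
    simp only [Finset.mem_erase, Finset.mem_insert, Finset.mem_singleton, not_or, not_and] at hx1 hx2 hy1 hy2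
    have : y = u := by
      by_contra hyu
      have hyv : y = v := hy1.resolve_left hyu
      exact hy2 hyu (hyv ▸ hv)
    rw [this]
    exact h x hx1.2 hx2.1 hx2.2

theorem red_words (S : Finset (List Λ)) (hS : 3 ≤ S.card) : Red (WG c) S := by
  classical
  obtain ⟨u, hu, v, hv, huv, A, B, O, f, -, -, h⟩ :=
    good c (S.sup List.length) S (fun x hx => Finset.le_sup hx) (by omega)
  by_cases hA : A
  · by_cases hB : B
    · left
      refine ⟨u, hu, v, hv, huv, fun x hx hxu hxv => ?_⟩
      have := h x hx hxu hxv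
      show WAdj c x u ↔ WAdj c x v
      rw [this.1, this.2]; simp [hA, hB]
    · exact red_pendant hS hv hu huv.symm (fun x hx hxv hxu hadj => hB ((h x hx hxu hxv).2.1 hadj).2)
  · exact red_pendant hS hu hv huv (fun x hx hxu hxv hadj => hA ((h x hx hxu hxv).1.1 hadj).2)

theorem distanceHereditary_words : DistanceHereditary (WG c) :=
  distanceHereditary_of_red (red_words c)

end Pool.Agent.MP_0380a0_co
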