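import Mathlib
import Pool.Agent.MP_0380a0_co.StepData
import Pool.Agent.MP_0380a0_co.Words

set_option autoImplicit false

namespace Pool.Agent.MP_0380a0_co

open Relation

variable {V : Type*} (G : SimpleGraph V) (idx : V → ℕ)

/-- The pair of a vertex set and a root outside of it, such that the set is connected to the
root. -/
structure Valid (B : Set V) (r : V) : Prop where
  notMem : r ∉ B
  conn : ∀ x ∈ B, ReflTransGen (Step G B) r x

/-- The property of the first vertex. -/
def IsFirst (B : Set V) (r v : V) : Prop :=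
  v ∈ B ∧ G.Adj r v ∧ ∀ w ∈ B, G.Adj r w → idx v ≤ idx w

open Classical in
/-- The neighbour of the root with the smallest index. -/
noncomputable def fst (B : Set V) (r : V) : V :=
  if h : ∃ v, IsFirst G idx B r v then h.choose else r

open Classical in
/-- The letters. -/
noncomputable def ltr (B : Set V) (r : V) : V → Letter :=
  if h : ∃ L, StepData G B r (fst G idx B r) L then h.choose else fun _ => toLex (0, 0)

/-- The class of the letter `a`. -/
def cls (B : Set V) (r : V) (a : Letter) : Set V :=
  {y | y ∈ B ∧ y ≠ fst G idx B r ∧ ltr G idx B r y = a}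

/-- `Word B r x l` says that the vertex `x` of `B` has the word `l`. -/
inductive Word : Set V → V → V → List Letter → Prop
  | nil (B : Set V) (r : V) : fst G idx B r ∈ B → Word B r (fst G idx B r) []
  | cons (B : Set V) (r x : V) (a : Letter) (l : List Letter) : x ∈ B → x ≠ fst G idx B r →
      ltr G idx B r x = a →
      Word (cls G idx B r a) (rt r (fst G idx B r) a) x l → Word B r x (a :: l)

variable {G} {idx}

theorem Valid.exists_first {B : Set V} {r : V} (h : Valid G B r) {x : V} (hx : x ∈ B) :
    ∃ v, IsFirst G idx B r v := by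
  classical
  have hex : ∃ n, ∃ v ∈ B, G.Adj r v ∧ idx v = n := by
    rcases ReflTransGen.cases_head (h.conn x hx) with h1 | ⟨c, h1, _⟩
    · exact absurd (h1 ▸ hx) h.notMem
    · exact ⟨idx c, c, h1.2, h1.1, rfl⟩
  obtain ⟨v, hv, hrv, hvn⟩ := Nat.find_spec hex
  refine ⟨v, hv, hrv, fun w hw hrw => ?_⟩
  rw [hvn]
  exact Nat.find_min' hex ⟨w, hw, hrw, rfl⟩

theorem Valid.fst_spec {B : Set V} {r : V} (h : Valid G B r) {x : V} (hx : x ∈ B) :
    IsFirst G idx B r (fst G idx B r) := by
  unfold fst
  rw [dif_pos (h.exists_first hx)]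
  exact (h.exists_first hx).choose_spec

theorem Valid.ltr_spec [Countable V] (hG : DistanceHereditary G) {B : Set V} {r : V}
    (h : Valid G B r) {x : V} (hx : x ∈ B) :
    StepData G B r (fst G idx B r) (ltr G idx B r) := by
  have hex := exists_stepData hG h.notMem h.conn (h.fst_spec (idx := idx) hx).2.1
  unfold ltr
  rw [dif_pos hex]
  exact hex.choose_spec

theorem Valid.cls [Countable V] (hG : DistanceHereditary G) {B : Set V} {r : V}
    (h : Valid G B r) {x : V} (hx : x ∈ B) (a : Letter) :
    Valid G (cls G idx B r a) (rt r (fst G idx B r) a) := by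
  have hs := h.ltr_spec (idx := idx) hG hx
  refine ⟨?_, ?_⟩
  · unfold rt
    split_ifs
    · exact fun hc => hc.2.1 rfl
    · exact fun hc => h.notMem hc.1
  · rintro y ⟨hy, hyv, rfl⟩
    exact hs.conn y hy hyv

/-- Walks with a given number of steps. -/
def PathN (G : SimpleGraph V) (B : Set V) : ℕ → V → V → Prop
  | 0, a, x => a = x
  | (n + 1), a, x => ∃ b, Step G B a b ∧ PathN G B n b x

theorem exists_pathN {B : Set V} {a x : V} (h : ReflTransGen (Step G B) a x) :
    ∃ n, PathN G B n a x := by
  induction h using ReflTransGen.head_induction_on with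
  | refl => exact ⟨0, rfl⟩
  | head h1 _ ih =>
    obtain ⟨n, hn⟩ := ih
    exact ⟨n + 1, _, h1, hn⟩

theorem StepData.adj_rt {B : Set V} {r v : V} {L : V → Letter} (hs : StepData G B r v L)
    {y b : V} (hy : y ∈ B) (hb : b ∈ B) (hbv : b ≠ v) (hyb : G.Adj y b)
    (hne : y = v ∨ L y ≠ L b) : G.Adj (rt r v (L b)) b := by
  by_cases hyv : y = v
  · subst hyv
    exact ((hs.adj_v b hb hbv).1 hyb).2
  · rcases lt_or_gt_of_ne (hne.resolve_left hyv) with h | h
    · exact ((hs.adj_r b hb hbv).1 ((hs.adj_lt y hy hyv b hb hbv h).1 hyb).2.2).2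
    · exact ((hs.adj_lt b hb hbv y hy hyv h).1 hyb.symm).2.1

theorem StepData.path_aux {B : Set V} {r v : V} {L : V → Letter} (hs : StepData G B r v L)
    {x : V} (hx : x ∈ B) (hxv : x ≠ v) (n : ℕ) : ∀ y ∈ B, PathN G B n y x →
      ((y ≠ v ∧ L y = L x) ∧ PathN G {z | z ∈ B ∧ z ≠ v ∧ L z = L x} n y x) ∨
      (∃ m < n, ∃ p, G.Adj (rt r v (L x)) p ∧ (p ∈ B ∧ p ≠ v ∧ L p = L x) ∧
        PathN G {z | z ∈ B ∧ z ≠ v ∧ L z = L x} m p x) := by
  induction n with
  | zero =>
    rintro y hy rfl
    exact Or.inl ⟨⟨hxv, rfl⟩, rfl⟩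
  | succ n ih =>
    rintro y hy ⟨b, hyb, hb⟩
    rcases ih b hyb.2 hb with ⟨⟨h1, h2⟩, h3⟩ | ⟨m, hm, h⟩
    · by_cases hyc : y ≠ v ∧ L y = L x
      · exact Or.inl ⟨hyc, b, ⟨hyb.1, hyb.2, h1, h2⟩, h3⟩
      · right
        refine ⟨n, by omega, b, ?_, ⟨hyb.2, h1, h2⟩, h3⟩
        rw [← h2]
        refine hs.adj_rt hy hyb.2 h1 hyb.1 ?_
        by_cases hyv : y = v
        · exact Or.inl hyv
        · right
          rw [h2]
          exact fun e => hyc ⟨hyv, e⟩
    · exact Or.inr ⟨m, by omega, h⟩

open Classical in
/-- The number of indices at most `K` used in `B`. -/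
noncomputable def cnt (idx : V → ℕ) (B : Set V) (K : ℕ) : ℕ :=
  ((Finset.range (K + 1)).filter (fun i => ∃ b ∈ B, idx b = i)).card

theorem cnt_lt (hidx : Function.Injective idx) {B B' : Set V} {v : V} {K : ℕ} (hv : v ∈ B)
    (hvK : idx v ≤ K) (hB' : ∀ b ∈ B', b ∈ B ∧ b ≠ v) : cnt idx B' K < cnt idx B K := by
  classical
  unfold cnt
  refine Finset.card_lt_card ?_
  rw [Finset.ssubset_iff_of_subset]
  · refine ⟨idx v, ?_, ?_⟩
    · simp only [Finset.mem_filter, Finset.mem_range]
      exact ⟨by omega, v, hv, rfl⟩
    · simp only [Finset.mem_filter, Finset.mem_range, not_and, not_exists]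
      rintro _ b hb e
      exact (hB' b hb).2 (hidx e)
  · intro i hi
    simp only [Finset.mem_filter, Finset.mem_range] at hi ⊢
    obtain ⟨h1, b, hb, h2⟩ := hi
    exact ⟨h1, b, (hB' b hb).1, h2⟩

theorem exists_word_aux [Countable V] (hG : DistanceHereditary G) (hidx : Function.Injective idx)
    (n : ℕ) : ∀ (k : ℕ) (B : Set V) (r x p : V), Valid G B r → x ∈ B → G.Adj r p → p ∈ B →
      PathN G B n p x → cnt idx B (idx p) ≤ k → ∃ l, Word G idx B r x l := by
  induction n using Nat.strong_induction_on with
  | _ n ihn =>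
  intro k
  induction k with
  | zero =>
    intro B r x p hval hx hrp hp hpath hcnt
    exfalso
    have : 0 < cnt idx B (idx p) := by
      classical
      unfold cnt
      rw [Finset.card_pos]
      exact ⟨idx p, by simp only [Finset.mem_filter, Finset.mem_range]; exact ⟨by omega, p, hp, rfl⟩⟩
    omega
  | succ k ihk =>
    intro B r x p hval hx hrp hp hpath hcnt
    by_cases hxv : x = fst G idx B r
    · refine ⟨[], ?_⟩
      rw [hxv]
      exact Word.nil B r (hval.fst_spec hx).1
    · have hs := hval.ltr_spec (idx := idx) hG hx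
      have hval' := hval.cls (idx := idx) hG hx (ltr G idx B r x)
      have hx' : x ∈ cls G idx B r (ltr G idx B r x) := ⟨hx, hxv, rfl⟩
      rcases hs.path_aux hx hxv n p hp hpath with ⟨⟨h1, h2⟩, h3⟩ | ⟨m, hm, p', h1, h2, h3⟩
      · -- the path stays in the class
        have h4 := (hs.adj_r p hp h1).1 hrp
        rw [h2] at h4
        obtain ⟨l, hl⟩ := ihk (cls G idx B r (ltr G idx B r x))
          (rt r (fst G idx B r) (ltr G idx B r x)) x p hval' hx' h4.2 ⟨hp, h1, h2⟩ h3 (by
            have := cnt_lt hidx (B := B) (B' := cls G idx B r (ltr G idx B r x))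
              (v := fst G idx B r) (K := idx p) (hval.fst_spec hx).1
              ((hval.fst_spec hx).2.2 p hp hrp) (fun b hb => ⟨hb.1, hb.2.1⟩)
            omega)
        exact ⟨_, Word.cons B r x _ l hx hxv rfl hl⟩
      · obtain ⟨l, hl⟩ := ihn m hm _ (cls G idx B r (ltr G idx B r x))
          (rt r (fst G idx B r) (ltr G idx B r x)) x p' hval' hx' h1 h2 h3 le_rfl
        exact ⟨_, Word.cons B r x _ l hx hxv rfl hl⟩

theorem exists_word [Countable V] (hG : DistanceHereditary G) (hidx : Function.Injective idx)
    {B : Set V} {r x : V} (hval : Valid G B r) (hx : x ∈ B) : ∃ l, Word G idx B r x l := by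
  obtain ⟨n, hn⟩ := exists_pathN (hval.conn x hx)
  cases n with
  | zero => exact absurd (show r = x from hn) (fun e => hval.notMem (e ▸ hx))
  | succ n =>
    obtain ⟨p, hp, hpath⟩ := hn
    exact exists_word_aux hG hidx n _ B r x p hval hx hp.1 hp.2 hpath le_rfl

theorem Word.open_iff [Countable V] (hG : DistanceHereditary G) {B : Set V} {r x : V}
    {l : List Letter} (h : Word G idx B r x l) (hval : Valid G B r) :
    G.Adj r x ↔ Open col l := by
  induction h with
  | nil B r hB =>
    have := hval.fst_spec (idx := idx) hB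
    simp [open_nil, this.2.1]
  | cons B r x a l hx hxv ha _ ih =>
    have hs := hval.ltr_spec (idx := idx) hG hx
    have hval' := hval.cls (idx := idx) hG hx a
    rw [open_cons, ← ih hval', hs.adj_r x hx hxv, ha]

theorem Word.adj_iff [Countable V] (hG : DistanceHereditary G) {B : Set V} {r x : V}
    {l : List Letter} (h : Word G idx B r x l) (hval : Valid G B r) :
    ∀ (y : V) (m : List Letter), Word G idx B r y m →
      (l = m → x = y) ∧ (G.Adj x y ↔ WAdj col l m) := by
  induction h with
  | nil B r hB =>
    have hs := hval.ltr_spec (idx := idx) hG hB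
    intro y m hm
    cases hm with
    | nil _ _ _ => exact ⟨fun _ => rfl, by simp [WAdj]⟩
    | cons _ _ _ b m hy hyv hb hm' =>
      have hval' := hval.cls (idx := idx) hG hy b
      refine ⟨fun e => by simp at e, ?_⟩
      rw [hs.adj_v y hy hyv, hb, hm'.open_iff hG hval']
      simp [WAdj]
  | cons B r x a l hx hxv ha hl ih =>
    have hs := hval.ltr_spec (idx := idx) hG hx
    have hval' := hval.cls (idx := idx) hG hx a
    intro y m hm
    cases hm with
    | nil _ _ _ =>
      refine ⟨fun e => by simp at e, ?_⟩
      rw [G.adj_comm, hs.adj_v x hx hxv, ha, hl.open_iff hG hval']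
      simp [WAdj]
    | cons _ _ _ b m hy hyv hb hm' =>
      rcases lt_trichotomy a b with hab | rfl | hab
      · refine ⟨fun e => absurd (List.cons.inj e).1 hab.ne, ?_⟩
        have hopen := (Word.cons B r y b m hy hyv hb hm').open_iff hG hval
        rw [hs.adj_lt x hx hxv y hy hyv (by rw [ha, hb]; exact hab), ha,
          hl.open_iff hG hval', hopen]
        simp [WAdj, hab, hab.ne, hab.not_gt]
      · have := ih hval' y m hm'
        refine ⟨fun e => this.1 (List.cons.inj e).2, ?_⟩
        rw [this.2]
        simp [WAdj]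
      · have hval'' := hval.cls (idx := idx) hG hy b
        refine ⟨fun e => absurd (List.cons.inj e).1 hab.ne', ?_⟩
        have hopen := (Word.cons B r x a l hx hxv ha hl).open_iff hG hval
        rw [G.adj_comm, hs.adj_lt y hy hyv x hx hxv (by rw [ha, hb]; exact hab), hb,
          hm'.open_iff hG hval'', hopen]
        simp [WAdj, hab, hab.ne', hab.not_gt]

/-! ### The embedding of a countable distance-hereditary graph -/

theorem valid_component (K : G.ConnectedComponent) (r : V) (hr : G.connectedComponentMk r = K) :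
    Valid G {x | G.connectedComponentMk x = K ∧ x ≠ r} r := by
  refine ⟨fun h => h.2 rfl, ?_⟩
  rintro x ⟨hx, hxr⟩
  have hreach : G.Reachable r x := by
    rw [← SimpleGraph.ConnectedComponent.eq, hr, hx]
  rw [SimpleGraph.reachable_iff_reflTransGen] at hreach
  have key : ∀ y, ReflTransGen G.Adj r y → G.connectedComponentMk y = K ∧
      (y = r ∨ ReflTransGen (Step G {x | G.connectedComponentMk x = K ∧ x ≠ r}) r y) := by
    intro y hy
    induction hy with
    | refl => exact ⟨hr, Or.inl rfl⟩
    | @tail a b _ hab ih =>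
      obtain ⟨h1, h2⟩ := ih
      have hb : G.connectedComponentMk b = K := by
        rw [← h1, SimpleGraph.ConnectedComponent.eq]
        exact hab.reachable.symm
      refine ⟨hb, ?_⟩
      by_cases hbr : b = r
      · exact Or.inl hbr
      · right
        rcases h2 with rfl | h2
        · exact ReflTransGen.single ⟨hab, hb, hbr⟩
        · exact h2.tail ⟨hab, hb, hbr⟩
  exact (key x hreach).2.resolve_left hxr

/-- Every countable distance-hereditary graph is an induced subgraph of the graph of words. -/
theorem exists_embedding [Countable V] (hG : DistanceHereditary G) :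
    Nonempty (G ↪g WG col) := by
  classical
  obtain ⟨idx, hidx⟩ := exists_injective_nat V
  have : Countable G.ConnectedComponent := by
    unfold SimpleGraph.ConnectedComponent; infer_instance
  obtain ⟨ic, hic⟩ := exists_injective_nat G.ConnectedComponent
  -- the roots
  have hroot : ∀ K : G.ConnectedComponent, ∃ r, G.connectedComponentMk r = K :=
    fun K => K.ind (fun v => ⟨v, rfl⟩)
  choose root hroot using hroot
  have hval : ∀ K, Valid G {x | G.connectedComponentMk x = K ∧ x ≠ root K} (root K) :=
    fun K => valid_component K (root K) (hroot K)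
  -- the words
  have hword : ∀ x : V, ∃ l, x ≠ root (G.connectedComponentMk x) →
      Word G idx {y | G.connectedComponentMk y = G.connectedComponentMk x ∧
        y ≠ root (G.connectedComponentMk x)} (root (G.connectedComponentMk x)) x l := by
    intro x
    by_cases hx : x = root (G.connectedComponentMk x)
    · exact ⟨[], fun h => absurd hx h⟩
    · obtain ⟨l, hl⟩ := exists_word hG hidx (hval (G.connectedComponentMk x)) (x := x) ⟨rfl, hx⟩
      exact ⟨l, fun _ => hl⟩
  choose wd hwd using hword
  let c0 : Letter := toLex (0, 0)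
  let cK : G.ConnectedComponent → Letter := fun K => toLex ((ic K : ℚ), 2)
  let tail : V → List Letter := fun x =>
    if x = root (G.connectedComponentMk x) then [] else c0 :: wd x
  let F : V → List Letter := fun x => cK (G.connectedComponentMk x) :: tail x
  have hcK : ∀ K K', cK K = cK K' → K = K' := by
    intro K K' h
    have h1 : ((ic K : ℚ), (2 : Fin 3)) = ((ic K' : ℚ), (2 : Fin 3)) := toLex.injective h
    have h2 : (ic K : ℚ) = (ic K' : ℚ) := (Prod.mk.inj h1).1
    exact hic (by exact_mod_cast h2)
  have hcol : ∀ K, col (cK K) = 2 := fun K => rfl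
  have hcol0 : col c0 = 0 := rfl
  -- words within one component
  have hsame : ∀ x y, G.connectedComponentMk x = G.connectedComponentMk y →
      (tail x = tail y → x = y) ∧ (G.Adj x y ↔ WAdj col (tail x) (tail y)) := by
    intro x y hxy
    by_cases hx : x = root (G.connectedComponentMk x)
    · by_cases hy : y = root (G.connectedComponentMk y)
      · have e : x = y := by rw [hx, hxy, ← hy]
        subst e
        refine ⟨fun _ => rfl, ?_⟩
        simp only [SimpleGraph.irrefl, false_iff]
        exact WAdj.irrefl' col _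
      · have e1 : tail x = [] := if_pos hx
        have e2 : tail y = c0 :: wd y := if_neg hy
        rw [e1, e2]
        refine ⟨fun e => by simp at e, ?_⟩
        have := (hwd y hy).open_iff hG (hval (G.connectedComponentMk y))
        rw [← hxy, ← hx] at this
        rw [this]
        simp [WAdj, hcol0]
    · by_cases hy : y = root (G.connectedComponentMk y)
      · have e1 : tail x = c0 :: wd x := if_neg hx
        have e2 : tail y = [] := if_pos hy
        rw [e1, e2]
        refine ⟨fun e => by simp at e, ?_⟩
        have := (hwd x hx).open_iff hG (hval (G.connectedComponentMk x))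
        rw [hxy, ← hy] at this
        rw [G.adj_comm, this]
        simp [WAdj, hcol0]
      · have e1 : tail x = c0 :: wd x := if_neg hx
        have e2 : tail y = c0 :: wd y := if_neg hy
        have h1 := hwd x hx
        have h2 := hwd y hy
        rw [← hxy] at h2
        have := h1.adj_iff hG (hval (G.connectedComponentMk x)) y (wd y) h2
        rw [e1, e2, wAdj_cons]
        exact ⟨fun e => this.1 (List.cons.inj e).2, this.2⟩
  have hdiff : ∀ x y, G.connectedComponentMk x ≠ G.connectedComponentMk y →
      ¬ WAdj col (F x) (F y) := by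
    intro x y hxy h
    simp only [F, WAdj] at h
    rcases h with ⟨h, _⟩ | ⟨_, h, _⟩ | ⟨_, h, _⟩
    · exact hxy (hcK _ _ h)
    · exact h (hcol _)
    · exact h (hcol _)
  refine ⟨⟨⟨F, ?_⟩, ?_⟩⟩
  · intro x y h
    have h1 := List.cons.inj h
    exact (hsame x y (hcK _ _ h1.1)).1 h1.2
  · intro x y
    show WAdj col (F x) (F y) ↔ G.Adj x y
    by_cases hxy : G.connectedComponentMk x = G.connectedComponentMk y
    · rw [(hsame x y hxy).2]
      simp only [F, hxy]
      rw [wAdj_cons]
    · constructor
      · intro h; exact absurd h (hdiff x y hxy)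
      · intro h
        exact absurd (SimpleGraph.ConnectedComponent.eq.2 h.reachable) hxy

end Pool.Agent.MP_0380a0_co
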