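import Mathlib
import Pool.Agent.MP_0380a0_co.Criterion

set_option autoImplicit false

namespace Pool.Agent.MP_0380a0_co

open Classical

variable {V : Type*}

/-- Reduced words: consecutive letters are different. -/
def RW (V : Type*) : Type _ := {l : List V // l.IsChain (· ≠ ·)}

/-- Multiplication of a word by the involution `w` on the left. -/
noncomputable def epsL (w : V) : List V → List V
  | [] => [w]
  | (a :: t) => if a = w then t else w :: a :: t

theorem epsL_chain (w : V) (l : List V) (h : l.IsChain (· ≠ ·)) :
    (epsL w l).IsChain (· ≠ ·) := by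
  cases l with
  | nil => simp [epsL]
  | cons a t =>
    by_cases haw : a = w
    · simp only [epsL, haw, if_true]
      exact (List.isChain_cons.1 h).2
    · simp only [epsL, haw, if_false]
      rw [List.isChain_cons_cons]
      exact ⟨fun e => haw e.symm, h⟩

theorem epsL_epsL (w : V) (l : List V) (h : l.IsChain (· ≠ ·)) : epsL w (epsL w l) = l := by
  cases l with
  | nil => simp [epsL]
  | cons a t =>
    by_cases haw : a = w
    · subst haw
      simp only [epsL, if_true]
      cases t with
      | nil => rfl
      | cons b s =>
        have : a ≠ b := (List.isChain_cons_cons.1 h).1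
        simp [epsL, this.symm]
    · simp [epsL, haw]

/-- Multiplication of a reduced word by the involution `w` on the left. -/
noncomputable def eps (w : V) (x : RW V) : RW V := ⟨epsL w x.1, epsL_chain w x.1 x.2⟩

theorem eps_eps (w : V) (x : RW V) : eps w (eps w x) = x := Subtype.ext (epsL_epsL w x.1 x.2)

theorem eps_inj (w : V) {x y : RW V} (h : eps w x = eps w y) : x = y := by
  rw [← eps_eps w x, h, eps_eps]

/-- The empty word. -/
def one (V : Type*) : RW V := ⟨[], List.isChain_nil⟩

/-- The length of `eps w x`. -/
theorem eps_length (w : V) (x : RW V) :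
    (eps w x).1.length + 1 = x.1.length ∨ (eps w x).1.length = x.1.length + 1 := by
  obtain ⟨l, hl⟩ := x
  cases l with
  | nil => right; simp [eps, epsL]
  | cons a t =>
    by_cases haw : a = w
    · left; simp [eps, epsL, haw]
    · right; simp [eps, epsL, haw]

theorem eps_letter_inj {a b : V} {x : RW V} (h : eps a x = eps b x) : a = b := by
  obtain ⟨l, hl⟩ := x
  have h' : epsL a l = epsL b l := congrArg Subtype.val h
  cases l with
  | nil => simpa [epsL] using h'
  | cons d t =>
    by_cases hda : d = a
    · by_cases hdb : d = b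
      · exact hda.symm.trans hdb
      · simp only [epsL, hda, if_true] at h'
        rw [if_neg (fun e => hdb (hda.trans e))] at h'
        have := congrArg List.length h'
        simp only [List.length_cons] at this
        omega
    · by_cases hdb : d = b
      · simp only [epsL, hdb, if_true] at h'
        rw [if_neg (fun e => hda (hdb.trans e))] at h'
        have := congrArg List.length h'
        simp only [List.length_cons] at this
        omega
      · simp only [epsL, hda, hdb, if_false] at h'
        exact (List.cons.inj h').1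

/-- The vertex-transitive graph built from `U`. -/
noncomputable def XG (U : SimpleGraph V) : SimpleGraph (RW V) where
  Adj x y := ∃ a b, U.Adj a b ∧ eps a x = eps b y
  symm := ⟨fun _ _ ⟨a, b, h1, h2⟩ => ⟨b, a, h1.symm, h2.symm⟩⟩
  loopless := ⟨fun x ⟨a, b, h1, h2⟩ => by
    rw [eps_letter_inj h2] at h1
    exact U.loopless.irrefl _ h1⟩

theorem xg_adj (U : SimpleGraph V) (x y : RW V) :
    (XG U).Adj x y ↔ ∃ a b, U.Adj a b ∧ eps a x = eps b y := Iff.rfl

/-- No collapse between different letters. -/
theorem eps_eps_eq {a b c d : V} {k : RW V} (hab : a ≠ b) (hcd : d ≠ c)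
    (h : eps a (eps b k) = eps d (eps c k)) : a = d := by
  obtain ⟨l, hl⟩ := k
  have h' : epsL a (epsL b l) = epsL d (epsL c l) := congrArg Subtype.val h
  cases l with
  | nil =>
    simp only [epsL, if_neg hab.symm, if_neg hcd.symm] at h'
    exact (List.cons.inj h').1
  | cons e t =>
    by_cases heb : e = b
    · by_cases hec : e = c
      · have h1 : epsL b (e :: t) = t := by simp [epsL, heb]
        have h2 : epsL c (e :: t) = t := by simp [epsL, hec]
        rw [h1, h2] at h'
        exact eps_letter_inj (x := ⟨t, (List.isChain_cons.1 hl).2⟩) (Subtype.ext h')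
      · exfalso
        have h1 : epsL b (e :: t) = t := by simp [epsL, heb]
        have h2 : epsL c (e :: t) = c :: e :: t := by simp [epsL, hec]
        have h3 : epsL d (c :: e :: t) = d :: c :: e :: t := by
          simp only [epsL, if_neg hcd.symm]
        rw [h1, h2, h3] at h'
        have h4 := congrArg List.length h'
        have h5 := eps_length a (⟨t, (List.isChain_cons.1 hl).2⟩ : RW V)
        simp only [eps, List.length_cons] at h4 h5
        omega
    · by_cases hec : e = c
      · exfalso
        have h1 : epsL b (e :: t) = b :: e :: t := by simp [epsL, heb]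
        have h2 : epsL c (e :: t) = t := by simp [epsL, hec]
        have h3 : epsL a (b :: e :: t) = a :: b :: e :: t := by
          simp only [epsL, if_neg hab.symm]
        rw [h1, h2, h3] at h'
        have h4 := congrArg List.length h'
        have h5 := eps_length d (⟨t, (List.isChain_cons.1 hl).2⟩ : RW V)
        simp only [eps, List.length_cons] at h4 h5
        omega
      · have h1 : epsL b (e :: t) = b :: e :: t := by simp [epsL, heb]
        have h2 : epsL c (e :: t) = c :: e :: t := by simp [epsL, hec]
        rw [h1, h2] at h'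
        simp only [epsL, if_neg hab.symm, if_neg hcd.symm] at h'
        exact (List.cons.inj h').1

/-- The vertices `eps b k` form a copy of `U`. -/
theorem xg_block (U : SimpleGraph V) (b c : V) (k : RW V) :
    (XG U).Adj (eps b k) (eps c k) ↔ U.Adj b c := by
  constructor
  · rintro ⟨a, d, had, h⟩
    by_cases hab : a = b
    · subst hab
      rw [eps_eps] at h
      have h2 : eps d k = eps c k := by
        conv_lhs => rw [h]
        rw [eps_eps]
      rwa [eps_letter_inj h2] at had
    · by_cases hdc : d = c
      · subst hdc
        rw [eps_eps] at h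
        have h2 : eps a k = eps b k := by
          conv_lhs => rw [← h]
          rw [eps_eps]
        rwa [eps_letter_inj h2] at had
      · exact absurd (eps_eps_eq hab hdc h) had.ne
  · intro h
    exact ⟨b, c, h, by rw [eps_eps, eps_eps]⟩

/-- The embedding of `U` in `XG U`. -/
noncomputable def xgEmb (U : SimpleGraph V) : U ↪g XG U where
  toFun b := eps b (one V)
  inj' := fun _ _ h => eps_letter_inj h
  map_rel_iff' := by intro a b; exact xg_block U a b (one V)

/-! ### Vertex transitivity -/

/-- The action of the word `l` on `y`. -/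
noncomputable def act (l : List V) (y : RW V) : RW V := l.foldr eps y

theorem act_eps (w : V) (x y : RW V) : act (eps w x).1 y = eps w (act x.1 y) := by
  obtain ⟨l, hl⟩ := x
  cases l with
  | nil => rfl
  | cons a t =>
    by_cases haw : a = w
    · subst haw
      have h1 : (eps a ⟨a :: t, hl⟩).1 = t := by simp [eps, epsL]
      rw [h1]
      exact (eps_eps a _).symm
    · have h1 : (eps w ⟨a :: t, hl⟩).1 = w :: a :: t := by simp [eps, epsL, haw]
      rw [h1]
      rfl

theorem act_one (l : List V) (h : l.IsChain (· ≠ ·)) : act l (one V) = ⟨l, h⟩ := by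
  induction l with
  | nil => rfl
  | cons a t ih =>
    have ht : t.IsChain (· ≠ ·) := (List.isChain_cons.1 h).2
    have h1 : act (a :: t) (one V) = eps a (act t (one V)) := rfl
    rw [h1, ih ht]
    apply Subtype.ext
    show epsL a t = a :: t
    cases t with
    | nil => rfl
    | cons b s =>
      have : a ≠ b := (List.isChain_cons_cons.1 h).1
      simp [epsL, this.symm]

theorem eq_id_of_comm (f : RW V → RW V) (h : ∀ w x, f (eps w x) = eps w (f x))
    (h1 : f (one V) = one V) (x : RW V) : f x = x := by
  have key : ∀ l : List V, f (act l (one V)) = act l (one V) := by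
    intro l
    induction l with
    | nil => exact h1
    | cons a t ih =>
      show f (eps a (act t (one V))) = eps a (act t (one V))
      rw [h, ih]
  have := key x.1
  rwa [act_one x.1 x.2] at this

/-- The inverse of a word, as a reduced word. -/
noncomputable def invW (l : List V) : RW V := l.foldl (fun acc w => eps w acc) (one V)

theorem act_invW (l : List V) : act l (invW l) = one V := by
  have key : ∀ (l : List V) (z : RW V), act l (l.foldl (fun acc w => eps w acc) z) = z := by
    intro l
    induction l with
    | nil => intro z; rfl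
    | cons a t ih =>
      intro z
      show eps a (act t (t.foldl (fun acc w => eps w acc) (eps a z))) = z
      rw [ih, eps_eps]
  exact key l (one V)

theorem act_act_inv (x y : RW V) : act (act x.1 y).1 (invW y.1) = x := by
  refine eq_id_of_comm (fun x => act (act x.1 y).1 (invW y.1)) (fun w x => ?_) ?_ x
  · show act (act (eps w x).1 y).1 (invW y.1) = eps w (act (act x.1 y).1 (invW y.1))
    rw [act_eps, act_eps]
  · show act (act (one V).1 y).1 (invW y.1) = one V
    have : act (one V).1 y = y := rfl
    rw [this, act_invW]

/-- Right multiplication by `y`. -/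
noncomputable def rmul (y : RW V) : RW V ≃ RW V where
  toFun x := act x.1 y
  invFun x := act x.1 (invW y.1)
  left_inv := fun x => act_act_inv x y
  right_inv := by
    intro x
    have hinj : Function.Injective (fun x : RW V => act x.1 (invW y.1)) := by
      intro x x' h
      have h1 := act_act_inv x (invW y.1)
      have h2 := act_act_inv x' (invW y.1)
      simp only at h
      rw [← h1, ← h2, h]
    apply hinj
    exact act_act_inv _ y

/-- Right multiplication by `y` as an automorphism. -/
noncomputable def rmulIso (U : SimpleGraph V) (y : RW V) : XG U ≃g XG U where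
  toEquiv := rmul y
  map_rel_iff' := by
    intro x x'
    show (XG U).Adj (act x.1 y) (act x'.1 y) ↔ _
    simp only [xg_adj, ← act_eps]
    constructor
    · rintro ⟨a, b, h, e⟩
      exact ⟨a, b, h, (rmul y).injective e⟩
    · rintro ⟨a, b, h, e⟩
      exact ⟨a, b, h, by rw [e]⟩

theorem xg_transitive (U : SimpleGraph V) (x y : RW V) : ∃ φ : XG U ≃g XG U, φ x = y := by
  refine ⟨(rmulIso U x).symm.trans (rmulIso U y), ?_⟩
  have h1 : (rmulIso U x) (one V) = x := rfl
  have h2 : (rmulIso U x).symm x = one V := by
    conv_lhs => rw [← h1]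
    exact (rmulIso U x).symm_apply_apply _
  show (rmulIso U y) ((rmulIso U x).symm x) = y
  rw [h2]; rfl

/-! ### Reducibility -/

theorem red_of_image {V' : Type*} {G : SimpleGraph V} {G' : SimpleGraph V'} {S : Finset V}
    (f : V → V') (hf : ∀ x ∈ S, ∀ y ∈ S, f x = f y → x = y)
    (hadj : ∀ x ∈ S, ∀ y ∈ S, (G.Adj x y ↔ G'.Adj (f x) (f y))) (h : Red G' (S.image f)) :
    Red G S := by
  rcases h with ⟨u, hu, v, hv, huv, h⟩ | ⟨S1, S2, h1, h2, h3, h4, h5⟩
  · left
    obtain ⟨u, hu', rfl⟩ := Finset.mem_image.1 hu
    obtain ⟨v, hv', rfl⟩ := Finset.mem_image.1 hv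
    refine ⟨u, hu', v, hv', fun e => huv (by rw [e]), fun x hx hxu hxv => ?_⟩
    rw [hadj x hx u hu', hadj x hx v hv']
    exact h (f x) (Finset.mem_image_of_mem _ hx) (fun e => hxu (hf x hx u hu' e))
      (fun e => hxv (hf x hx v hv' e))
  · right
    have hlt : ∀ T : Finset V', T ⊂ S.image f → S.filter (fun x => f x ∈ T) ⊂ S := by
      intro T hT
      refine Finset.filter_ssubset.2 ?_
      obtain ⟨y, hy, hyT⟩ := Finset.exists_of_ssubset hT
      obtain ⟨x, hx, rfl⟩ := Finset.mem_image.1 hy
      exact ⟨x, hx, hyT⟩
    refine ⟨S.filter (fun x => f x ∈ S1), S.filter (fun x => f x ∈ S2), hlt S1 h1, hlt S2 h2,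
      ?_, ?_, ?_⟩
    · intro x hx
      rcases h3 (f x) (Finset.mem_image_of_mem _ hx) with h | h
      · left; simp [hx, h]
      · right; simp [hx, h]
    · intro x y hx1 hx2 hy1 hy2
      simp only [Finset.mem_filter] at hx1 hx2 hy1 hy2
      exact hf x hx1.1 y hy1.1 (h4 _ _ hx1.2 hx2.2 hy1.2 hy2.2)
    · intro x y hx1 hx2 hy1 hy2
      simp only [Finset.mem_filter, not_and] at hx1 hx2 hy1 hy2
      rw [hadj x hx1.1 y hy1.1]
      exact h5 _ _ hx1.2 (hx2 hx1.1) hy1.2 (hy2 hy1.1)

theorem red_xg {U : SimpleGraph V} (hU : ∀ S : Finset V, 3 ≤ S.card → Red U S)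
    (S : Finset (RW V)) (hS : 3 ≤ S.card) : Red (XG U) S := by
  obtain ⟨x, hx, hmax⟩ := S.exists_max_image (fun y => y.1.length)
    (Finset.card_pos.1 (by omega))
  -- `x` is not the empty word
  have hxne : x.1 ≠ [] := by
    intro h0
    have : S.card ≤ 1 := by
      rw [Finset.card_le_one]
      intro a ha b hb
      have ha' := hmax a ha
      have hb' := hmax b hb
      simp only [h0, List.length_nil, Nat.le_zero, List.length_eq_zero_iff] at ha' hb'
      exact Subtype.ext (ha'.trans hb'.symm)
    omega
  obtain ⟨u, t, hut⟩ : ∃ u t, x.1 = u :: t := List.exists_cons_of_ne_nil hxne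
  have hchain := x.2
  rw [hut] at hchain
  let k : RW V := ⟨t, (List.isChain_cons.1 hchain).2⟩
  have hxk : x.1.length = k.1.length + 1 := by rw [hut]; rfl
  -- the children and the parent of `k`
  let Ch : Finset (RW V) := S.filter (fun y => ∃ w, y.1 = w :: k.1)
  let Par : Finset (RW V) := S.filter (fun y => ∃ w, k.1 = w :: y.1)
  have hxCh : x ∈ Ch := by
    simp only [Ch, Finset.mem_filter]
    exact ⟨hx, u, hut⟩
  -- an element `eps w k` is a child or the parent of `k`
  have hsplit : ∀ w, (∃ v, (eps w k).1 = v :: k.1) ∨ (∃ v, k.1 = v :: (eps w k).1) := by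
    intro w
    rcases hk : k.1 with _ | ⟨d, s⟩
    · left; exact ⟨w, by simp [eps, epsL, hk]⟩
    · by_cases hdw : d = w
      · right; exact ⟨d, by simp [eps, epsL, hk, hdw]⟩
      · left; exact ⟨w, by simp [eps, epsL, hk, hdw]⟩
  by_cases hall : ∀ y ∈ S, y ∈ Ch ∪ Par
  · -- all of `S` lies in one block
    have hβ : ∀ y : RW V, ∃ b, y ∈ S → y = eps b k := by
      intro y
      by_cases hy : y ∈ S
      · rcases Finset.mem_union.1 (hall y hy) with h | h
        · obtain ⟨-, w, hw⟩ := Finset.mem_filter.1 h
          refine ⟨w, fun _ => Subtype.ext ?_⟩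
          have hc := y.2
          rw [hw] at hc
          show y.1 = epsL w k.1
          rw [hw]
          rcases hk : k.1 with _ | ⟨d, s⟩
          · rfl
          · rw [hk] at hc
            have : w ≠ d := (List.isChain_cons_cons.1 hc).1
            simp [epsL, this.symm]
        · obtain ⟨-, w, hw⟩ := Finset.mem_filter.1 h
          refine ⟨w, fun _ => Subtype.ext ?_⟩
          show y.1 = epsL w k.1
          rw [hw]; simp [epsL]
      · exact ⟨u, fun h => absurd h hy⟩
    choose β hβ using hβ
    have hinj : ∀ y ∈ S, ∀ z ∈ S, β y = β z → y = z := by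
      intro y hy z hz e
      rw [hβ y hy, hβ z hz, e]
    refine red_of_image β hinj ?_ (hU _ ?_)
    · intro y hy z hz
      rw [← xg_block U (β y) (β z) k, ← hβ y hy, ← hβ z hz]
    · rwa [Finset.card_image_of_injOn (fun y hy z hz e => hinj y hy z hz e)]
  · -- a separation
    right
    refine ⟨S \ Ch, Ch ∪ Par, ?_, ?_, ?_, ?_, ?_⟩
    · refine Finset.ssubset_iff_subset_ne.2 ⟨Finset.sdiff_subset, fun e => ?_⟩
      have : x ∈ S \ Ch := by rw [e]; exact hx
      exact (Finset.mem_sdiff.1 this).2 hxCh
    · refine Finset.ssubset_iff_subset_ne.2 ⟨?_, fun e => hall (fun y hy => by rw [e]; exact hy)⟩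
      exact Finset.union_subset (Finset.filter_subset _ _) (Finset.filter_subset _ _)
    · intro y hy
      by_cases hyc : y ∈ Ch
      · right; exact Finset.mem_union_left _ hyc
      · left; exact Finset.mem_sdiff.2 ⟨hy, hyc⟩
    · intro y z hy1 hy2 hz1 hz2
      have hy3 := (Finset.mem_union.1 hy2).resolve_left (Finset.mem_sdiff.1 hy1).2
      have hz3 := (Finset.mem_union.1 hz2).resolve_left (Finset.mem_sdiff.1 hz1).2
      obtain ⟨-, w, hw⟩ := Finset.mem_filter.1 hy3
      obtain ⟨-, w', hw'⟩ := Finset.mem_filter.1 hz3
      rw [hw] at hw'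
      exact Subtype.ext (List.cons.inj hw').2
    · intro y z hy1 hy2 hz1 hz2 hyz
      have hyS := (Finset.mem_sdiff.1 hy1).1
      have hzCh : z ∈ Ch := by
        rcases Finset.mem_union.1 hz1 with h | h
        · exact h
        · by_contra hc
          exact hz2 (Finset.mem_sdiff.2 ⟨(Finset.mem_filter.1 h).1, hc⟩)
      obtain ⟨hzS, w, hw⟩ := Finset.mem_filter.1 hzCh
      obtain ⟨a, b, hab, e⟩ := hyz
      by_cases hbw : w = b
      · have h1 : eps b z = k := by
          apply Subtype.ext
          show epsL b z.1 = k.1
          rw [hw]; simp [epsL, hbw]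
        rw [h1] at e
        have h2 : y = eps a k := by rw [← e, eps_eps]
        apply hy2
        rcases hsplit a with ⟨v, hv⟩ | ⟨v, hv⟩
        · rw [← h2] at hv
          exact Finset.mem_union_left _ (Finset.mem_filter.2 ⟨hyS, v, hv⟩)
        · rw [← h2] at hv
          exact Finset.mem_union_right _ (Finset.mem_filter.2 ⟨hyS, v, hv⟩)
      · have h1 : (eps b z).1 = b :: w :: k.1 := by
          show epsL b z.1 = _
          rw [hw]; simp [epsL, hbw]
        have h2 : y = eps a (eps b z) := by rw [← e, eps_eps]
        have h3 : y.1 = a :: b :: w :: k.1 := by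
          rw [h2]
          show epsL a (eps b z).1 = _
          rw [h1]
          simp [epsL, hab.ne.symm]
        have h4 := hmax y hyS
        simp only [h3, hxk, List.length_cons] at h4
        omega

theorem distanceHereditary_xg {U : SimpleGraph V} (hU : ∀ S : Finset V, 3 ≤ S.card → Red U S) :
    DistanceHereditary (XG U) :=
  distanceHereditary_of_red (red_xg hU)

instance [Countable V] : Countable (RW V) := by
  unfold RW; infer_instance

end Pool.Agent.MP_0380a0_co
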